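import Pool.Agent.X35.RP.Sieve
import Pool.Agent.H96R2.EQP.C

/-!
# The fourth moment of the sieve weights and the sumset of the reversed primes
-/

set_option autoImplicit false

open Finset Filter

namespace Pool.Agent.X35.RP

open Pool.Agent.Y843.HS (Pr Sv VV Th qq Wt S_TH)

theorem sum_pr_ge {C : ℝ} (hC : ∀ N : ℕ, 3 ≤ N →
    |∑ p ∈ (Finset.Icc 1 N).filter Nat.Prime, (1 : ℝ) / p - Real.log (Real.log N)| ≤ C)
    {R Y : ℕ} (hR : 3 ≤ R) (hY : R ≤ Y) :
    Real.log (Real.log Y) - Real.log (Real.log R) - 2 * C ≤ ∑ p ∈ Pr R Y, (1 : ℝ) / p := by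
  have h1 : ∑ p ∈ (Icc 1 R).filter Nat.Prime, (1 : ℝ) / p + ∑ p ∈ Pr R Y, (1 : ℝ) / p =
      ∑ p ∈ (Icc 1 Y).filter Nat.Prime, (1 : ℝ) / p := by
    unfold Pr
    rw [sum_filter, sum_filter, sum_filter]
    have h2 : ∀ N : ℕ, Icc 1 N = Ioc 0 N := by
      intro N
      ext x
      simp only [mem_Icc, mem_Ioc]
      omega
    rw [h2, h2]
    exact Finset.sum_Ioc_consecutive _ (Nat.zero_le _) hY
  have h2 := abs_le.1 (hC R hR)
  have h3 := abs_le.1 (hC Y (hR.trans hY))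
  linarith [h2.1, h2.2, h3.1, h3.2]

theorem VV_le {C : ℝ} (hC : ∀ N : ℕ, 3 ≤ N →
    |∑ p ∈ (Finset.Icc 1 N).filter Nat.Prime, (1 : ℝ) / p - Real.log (Real.log N)| ≤ C)
    (J0 J : ℕ) (hJ0 : 1 ≤ J0) (hJ : J0 ≤ J) :
    VV (fun _ => {0}) (2 ^ 2 ^ J0) (2 ^ 2 ^ J) ≤ Real.exp (2 * C) * 2 ^ J0 / 2 ^ J := by
  have hz : 3 ≤ 2 ^ 2 ^ J0 := by
    have h1 : 2 ^ 1 ≤ 2 ^ J0 := Nat.pow_le_pow_right (by norm_num) hJ0
    have h2 : 2 ^ 2 ^ 1 ≤ 2 ^ 2 ^ J0 := Nat.pow_le_pow_right (by norm_num) h1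
    norm_num at h2
    omega
  have hzR : 2 ^ 2 ^ J0 ≤ 2 ^ 2 ^ J :=
    Nat.pow_le_pow_right (by norm_num) (Nat.pow_le_pow_right (by norm_num) hJ)
  have h1 := sum_pr_ge hC hz hzR
  have hl2 : (0 : ℝ) < Real.log 2 := Real.log_pos (by norm_num)
  have h2 : ∀ n : ℕ, Real.log (Real.log ((2 ^ 2 ^ n : ℕ) : ℝ)) = n * Real.log 2 + Real.log (Real.log 2) := by
    intro n
    push_cast
    rw [Real.log_pow, Real.log_mul (by positivity) hl2.ne']
    push_cast
    rw [Real.log_pow]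
  rw [h2, h2] at h1
  unfold VV
  have h3 : ∀ p ∈ Pr (2 ^ 2 ^ J0) (2 ^ 2 ^ J),
      (1 - ((({0} : Finset ℕ)).card : ℝ) / p) ≤ Real.exp (-(1 / (p : ℝ))) := by
    intro p _
    rw [card_singleton, Nat.cast_one]
    exact Real.one_sub_le_exp_neg _
  have h4 : ∀ p ∈ Pr (2 ^ 2 ^ J0) (2 ^ 2 ^ J),
      0 ≤ (1 - ((({0} : Finset ℕ)).card : ℝ) / p) := by
    intro p hp
    unfold Pr at hp
    rw [mem_filter] at hp
    rw [card_singleton, Nat.cast_one, sub_nonneg, div_le_one (by exact_mod_cast hp.2.pos)]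
    exact_mod_cast hp.2.one_lt.le
  refine (Finset.prod_le_prod h4 h3).trans ?_
  rw [← Real.exp_sum, Finset.sum_neg_distrib]
  have h5 : Real.exp (2 * C) * 2 ^ J0 / 2 ^ J =
      Real.exp (-(J * Real.log 2 + Real.log (Real.log 2) - (J0 * Real.log 2 + Real.log (Real.log 2)) -
        2 * C)) := by
    have h6 : -(J * Real.log 2 + Real.log (Real.log 2) - (J0 * Real.log 2 + Real.log (Real.log 2)) -
        2 * C) = 2 * C + J0 * Real.log 2 - J * Real.log 2 := by ring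
    rw [h6, Real.exp_sub, Real.exp_add, Real.exp_nat_mul, Real.exp_nat_mul,
      Real.exp_log (by norm_num)]
  rw [h5]
  apply Real.exp_le_exp.2
  linarith

/-- the sieve weights and their fourth moment -/
theorem moment (b : ℕ) (hb : 2 ≤ b) : ∃ K : ℝ, 0 < K ∧ ∃ L1 : ℕ, ∀ l : ℕ, L1 ≤ l →
    ∃ w : ℕ → ℝ, (∀ n, 0 ≤ w n) ∧ (∀ p : ℕ, p.Prime → b ^ (2 * l - 1) ≤ p → w p = 1) ∧
      ∑ k ∈ range (b ^ (2 * l)), ‖Sw b (2 * l) w k‖ ^ 4 ≤ ((b : ℝ) ^ (2 * l) * (K / l)) ^ 4 := by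
  have hb0 : (0 : ℝ) < b := by exact_mod_cast (by omega : 0 < b)
  have hB : 4 ≤ b ^ 2 := by nlinarith
  obtain ⟨C, hC1, hC⟩ := Pool.Agent.Y257.HS.s_TH 1
  obtain ⟨r, L0, hr, hL0, herr⟩ := error (1 / (2 * (b : ℝ) ^ 4)) (by positivity) (b ^ 2) hB
  obtain ⟨CM, hCM⟩ := Pool.Agent.Helper256.KM.mertens_inv
  obtain ⟨J0, hJ0⟩ : ∃ J0, J0 = C + b + 1 := ⟨_, rfl⟩
  obtain ⟨K1, hK1⟩ : ∃ K1 : ℝ, K1 = Real.exp (2 * CM) * 2 ^ J0 := ⟨_, rfl⟩
  have hK1pos : 0 < K1 := by rw [hK1]; positivity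
  refine ⟨C * K1 * (8 * r * C) + 1, by positivity, L0 + 2 + 4 * r * C * 2 ^ J0 + 4 * r, ?_⟩
  intro l hl
  have hlL0 : L0 ≤ l := by omega
  have hl2 : 2 ≤ l := by omega
  obtain ⟨J', hJ'⟩ : ∃ J', J' = l / (2 * r) := ⟨_, rfl⟩
  obtain ⟨X, hX⟩ : ∃ X, X = 2 * J' / C := ⟨_, rfl⟩
  obtain ⟨J, hJ⟩ : ∃ J, J = Nat.log 2 X := ⟨_, rfl⟩
  have hJ'1 : 2 * J' * r ≤ l := by
    have := Nat.div_mul_le_self l (2 * r)
    rw [← hJ'] at this
    linarith
  have hJ'2 : l < 2 * r * (J' + 1) := by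
    have := Nat.lt_mul_div_succ l (show 0 < 2 * r by omega)
    rw [← hJ'] at this
    exact this
  have hX1 : C * X ≤ 2 * J' := by
    rw [hX]; exact Nat.mul_div_le _ _
  have hX2 : 2 * J' < C * (X + 1) := by
    have := Nat.lt_mul_div_succ (2 * J') (show 0 < C by omega)
    rw [← hX] at this
    exact this
  have hX3 : 2 ^ J0 ≤ X := by
    rw [hX, Nat.le_div_iff_mul_le (by omega)]
    by_contra h
    push Not at h
    have h1 : 4 * r * C * 2 ^ J0 + 4 * r ≤ l := by omega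
    have h2 : 2 * r * (J' + 1) ≤ r * (2 ^ J0 * C) + 2 * r := by
      have : 2 * r * (J' + 1) = r * (2 * J') + 2 * r := by ring
      rw [this]
      have := Nat.mul_le_mul_left r h.le
      omega
    have h3 : 4 * r * C * 2 ^ J0 = 4 * (r * (2 ^ J0 * C)) := by ring
    omega
  have hX0 : 1 ≤ X := le_trans Nat.one_le_two_pow hX3
  have hJJ : J0 ≤ J := by
    rw [hJ]
    exact (Nat.le_log_iff_pow_le (by norm_num) (by omega)).2 hX3
  have hJX : 2 ^ J ≤ X := by rw [hJ]; exact Nat.pow_log_le_self 2 (by omega)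
  have hJX2 : X < 2 ^ (J + 1) := by rw [hJ]; exact Nat.lt_pow_succ_log_self (by norm_num) X
  obtain ⟨θ, hθ⟩ := hC J0 J (by omega) hJJ (fun _ => {0}) (by
    intro p hp
    unfold Pr at hp
    rw [mem_filter] at hp
    refine ⟨by simp, ?_⟩
    intro c hc
    rw [mem_singleton] at hc
    rw [hc]
    exact hp.2.pos)
  refine ⟨fun n => Th (fun _ => {0}) (2 ^ 2 ^ J0) (2 ^ 2 ^ J) θ n, hθ.nonneg, ?_, ?_⟩
  · intro p hp hpl
    have hR : 2 ^ 2 ^ J < p := by
      have h1 : 2 ^ 2 ^ J ≤ 2 ^ (2 * J') := by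
        apply Nat.pow_le_pow_right (by norm_num)
        refine hJX.trans (le_trans ?_ hX1)
        exact Nat.le_mul_of_pos_left X (by omega)
      have h2 : 2 ^ (2 * J') ≤ b ^ (2 * J') := Nat.pow_le_pow_left hb _
      have h3 : b ^ (2 * J') < b ^ (2 * l - 1) := by
        apply Nat.pow_lt_pow_right (by omega)
        have : 2 * J' ≤ 2 * J' * r := Nat.le_mul_of_pos_right _ (by omega)
        omega
      omega
    have h0 : Th (fun _ => {0}) (2 ^ 2 ^ J0) (2 ^ 2 ^ J) θ p = ∑ U ∈ ({∅} : Finset (Finset ℕ)), θ U := by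
      unfold Th
      apply Finset.sum_congr _ (fun _ _ => rfl)
      ext U
      rw [mem_filter, mem_powerset, mem_singleton]
      constructor
      · rintro ⟨h1, h2⟩
        rw [Finset.eq_empty_iff_forall_notMem]
        intro q hq
        have h3 := h1 hq
        unfold Pr at h3
        rw [mem_filter, mem_Ioc] at h3
        have h4 := h2 q hq
        rw [mem_singleton] at h4
        have h5 := (Nat.prime_dvd_prime_iff_eq h3.2 hp).1 (Nat.dvd_of_mod_eq_zero h4)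
        omega
      · rintro rfl
        exact ⟨Finset.empty_subset _, by simp⟩
    show Th (fun _ => {0}) (2 ^ 2 ^ J0) (2 ^ 2 ^ J) θ p = 1
    rw [h0, Finset.sum_singleton, hθ.one]
  · rw [← n4_pow]
    apply pow_le_pow_left₀ (n4_nonneg _ _)
    refine (n4_Sw b hb l _ _ θ hθ.abs).trans ?_
    apply mul_le_mul_of_nonneg_left _ (by positivity)
    have hl0 : (0 : ℝ) < l := by exact_mod_cast (by omega : 0 < l)
    have hz : b ^ 2 ≤ 2 ^ 2 ^ J0 := by
      have h1 : b ≤ 2 ^ b := Nat.lt_two_pow_self.le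
      have h2 : 2 * b ≤ 2 ^ J0 := by
        have h3 : 2 ^ (b + 1) ≤ 2 ^ J0 := Nat.pow_le_pow_right (by norm_num) (by omega)
        rw [pow_succ] at h3
        omega
      calc b ^ 2 ≤ (2 ^ b) ^ 2 := Nat.pow_le_pow_left h1 _
        _ = 2 ^ (2 * b) := by rw [← pow_mul]; congr 1; ring
        _ ≤ 2 ^ 2 ^ J0 := Nat.pow_le_pow_right (by norm_num) h2
    have he := herr l J' hlL0 hJ'1
      (((Pr (2 ^ 2 ^ J0) (2 ^ 2 ^ J)).powerset.filter (fun U => θ U ≠ 0)).image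
        (fun U => ∏ p ∈ U, p)) (by
        intro d hd
        rw [mem_image] at hd
        obtain ⟨U, hU, rfl⟩ := hd
        rw [mem_filter, mem_powerset] at hU
        have hpr : ∀ p ∈ U, p.Prime ∧ b ^ 2 < p := by
          intro p hp
          have := hU.1 hp
          unfold Pr at this
          rw [mem_filter, mem_Ioc] at this
          exact ⟨this.2, by omega⟩
        have hco : ∀ m : ℕ, 0 < m → m ≤ b ^ 2 → Nat.Coprime (∏ p ∈ U, p) m := by
          intro m hm hm2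
          apply Nat.Coprime.prod_left
          intro p hp
          rw [(hpr p hp).1.coprime_iff_not_dvd]
          intro h
          have := Nat.le_of_dvd hm h
          have := (hpr p hp).2
          omega
        refine ⟨Finset.prod_pos fun p hp => (hpr p hp).1.pos, ?_, hco _ (by omega) le_rfl,
          hco _ (by omega) (by omega)⟩
        refine (hθ.lev U hU.1 hU.2).trans ?_
        calc (2 ^ 2 ^ J) ^ C = 2 ^ (2 ^ J * C) := by rw [← pow_mul]
          _ ≤ 2 ^ (2 * J') := by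
              apply Nat.pow_le_pow_right (by norm_num)
              calc 2 ^ J * C ≤ X * C := Nat.mul_le_mul_right _ hJX
                _ = C * X := by ring
                _ ≤ 2 * J' := hX1
          _ = (2 ^ 2) ^ J' := by rw [pow_mul]
          _ ≤ (b ^ 2) ^ J' := Nat.pow_le_pow_left (by omega) _)
    have hVV := VV_le hCM J0 J (by omega) hJJ
    rw [← hK1] at hVV
    have hVpos : 0 ≤ VV (fun _ => {0}) (2 ^ 2 ^ J0) (2 ^ 2 ^ J) := by
      unfold VV
      apply Finset.prod_nonneg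
      intro p hp
      unfold Pr at hp
      rw [mem_filter] at hp
      rw [card_singleton, Nat.cast_one, sub_nonneg, div_le_one (by exact_mod_cast hp.2.pos)]
      exact_mod_cast hp.2.one_lt.le
    have hqpos : 0 ≤ qq (fun _ => {0}) (2 ^ 2 ^ J0) (2 ^ 2 ^ J) θ := hVpos.trans hθ.lo
    have h2J : 1 / (2 : ℝ) ^ J ≤ 8 * r * C / l := by
      rw [div_le_div_iff₀ (by positivity) hl0, one_mul]
      have h1 : l ≤ 8 * r * C * 2 ^ J := by
        have e1 : 1 ≤ J' := by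
          by_contra h
          have : J' = 0 := by omega
          rw [this] at hX1
          have : C * X = 0 := by omega
          rcases Nat.mul_eq_zero.1 this with h3 | h3 <;> omega
        have e2 : l ≤ 4 * r * J' := by
          have : 2 * r * (J' + 1) ≤ 2 * r * (2 * J') := Nat.mul_le_mul_left _ (by omega)
          calc l ≤ 2 * r * (J' + 1) := hJ'2.le
            _ ≤ 2 * r * (2 * J') := this
            _ = 4 * r * J' := by ring
        have e3 : J' ≤ C * X := by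
          have : C * (X + 1) ≤ C * (2 * X) := Nat.mul_le_mul_left _ (by omega)
          have : C * (2 * X) = 2 * (C * X) := by ring
          omega
        have e4 : X ≤ 2 * 2 ^ J := by rw [pow_succ] at hJX2; omega
        calc l ≤ 4 * r * J' := e2
          _ ≤ 4 * r * (C * (2 * 2 ^ J)) := by
              apply Nat.mul_le_mul_left
              exact e3.trans (Nat.mul_le_mul_left _ e4)
          _ = 8 * r * C * 2 ^ J := by ring
      exact_mod_cast h1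
    have hq : |qq (fun _ => {0}) (2 ^ 2 ^ J0) (2 ^ 2 ^ J) θ| ≤ C * K1 * (8 * r * C) / l := by
      rw [abs_of_nonneg hqpos]
      refine hθ.hi.trans ?_
      calc (C : ℝ) * VV (fun _ => {0}) (2 ^ 2 ^ J0) (2 ^ 2 ^ J) ≤ C * (K1 / 2 ^ J) :=
            mul_le_mul_of_nonneg_left hVV (by positivity)
        _ = C * K1 * (1 / 2 ^ J) := by ring
        _ ≤ C * K1 * (8 * r * C / l) := mul_le_mul_of_nonneg_left h2J (by positivity)
        _ = _ := by ring
    have h5 : (C * K1 * (8 * r * C) + 1) / (l : ℝ) = C * K1 * (8 * r * C) / l + 1 / l := by ring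
    rw [h5]
    exact add_le_add hq he

/-- Parseval with nonnegative coefficients -/
theorem sq_sum {ι : Type*} (M : ℕ) (hM : 0 < M) (P : Finset ι) (W : ι → ℝ) (hW : ∀ x ∈ P, 0 ≤ W x)
    (g : ι → ℕ) :
    M * ∑ x ∈ P, ∑ y ∈ P, (if g x = g y then W x * W y else 0) ≤
      ∑ k ∈ range M, ‖∑ x ∈ P, (W x : ℂ) * e (k * (((g x : ℤ) : ℝ) / M))‖ ^ 2 := by
  have h1 : ∀ k ∈ range M,
      ((‖∑ x ∈ P, (W x : ℂ) * e (k * (((g x : ℤ) : ℝ) / M))‖ ^ 2 : ℝ) : ℂ) =
      ∑ x ∈ P, ∑ y ∈ P, ((W x * W y : ℝ) : ℂ) * e (k * (((((g x : ℤ) - g y : ℤ)) : ℝ) / M)) := by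
    intro k _
    rw [← Complex.normSq_eq_norm_sq, Complex.normSq_eq_conj_mul_self, mul_comm, map_sum,
      Finset.sum_mul_sum]
    apply Finset.sum_congr rfl
    intro x _
    apply Finset.sum_congr rfl
    intro y _
    rw [map_mul, Complex.conj_ofReal, conj_e]
    have h2 : e (k * (((((g x : ℤ) - g y : ℤ)) : ℝ) / M)) =
        e (k * (((g x : ℤ) : ℝ) / M)) * e (-(k * (((g y : ℤ) : ℝ) / M))) := by
      rw [← e_add]
      congr 1
      push_cast
      ring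
    rw [h2]
    push_cast
    ring
  have h2 : ((∑ k ∈ range M, ‖∑ x ∈ P, (W x : ℂ) * e (k * (((g x : ℤ) : ℝ) / M))‖ ^ 2 : ℝ) : ℂ) =
      ((∑ x ∈ P, ∑ y ∈ P, (W x * W y) *
        (if ((M : ℤ) ∣ ((g x : ℤ) - g y)) then (M : ℝ) else 0) : ℝ) : ℂ) := by
    rw [Complex.ofReal_sum, Finset.sum_congr rfl h1, Finset.sum_comm, Complex.ofReal_sum]
    apply Finset.sum_congr rfl
    intro x _
    rw [Finset.sum_comm, Complex.ofReal_sum]
    apply Finset.sum_congr rfl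
    intro y _
    rw [← Finset.mul_sum, sum_e M hM, Complex.ofReal_mul]
    congr 1
    split_ifs <;> simp
  have h3 : ∑ k ∈ range M, ‖∑ x ∈ P, (W x : ℂ) * e (k * (((g x : ℤ) : ℝ) / M))‖ ^ 2 =
      ∑ x ∈ P, ∑ y ∈ P, (W x * W y) *
        (if ((M : ℤ) ∣ ((g x : ℤ) - g y)) then (M : ℝ) else 0) := by
    exact_mod_cast h2
  rw [h3, Finset.mul_sum]
  apply Finset.sum_le_sum
  intro x hx
  rw [Finset.mul_sum]
  apply Finset.sum_le_sum
  intro y hy
  have hxy : 0 ≤ W x * W y := mul_nonneg (hW x hx) (hW y hy)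
  by_cases h : g x = g y
  · rw [if_pos h, if_pos (by rw [h]; simp)]
    linarith
  · rw [if_neg h, mul_zero]
    split_ifs
    · positivity
    · simp

theorem card_energy {ι : Type*} (P : Finset ι) (g : ι → ℕ) :
    (P.card : ℝ) ^ 2 ≤ (P.image g).card * ∑ x ∈ P, ∑ y ∈ P, (if g x = g y then (1 : ℝ) else 0) := by
  classical
  have h1 : (P.card : ℝ) = ∑ m ∈ P.image g, ((P.filter (fun x => g x = m)).card : ℝ) := by
    exact_mod_cast Finset.card_eq_sum_card_image g P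
  have h2 : ∑ x ∈ P, ∑ y ∈ P, (if g x = g y then (1 : ℝ) else 0) =
      ∑ m ∈ P.image g, ((P.filter (fun x => g x = m)).card : ℝ) ^ 2 := by
    rw [← Finset.sum_fiberwise_of_maps_to (g := g) (t := P.image g)
      (fun x hx => Finset.mem_image_of_mem g hx)]
    apply Finset.sum_congr rfl
    intro m _
    have h3 : ∀ x ∈ P.filter (fun x => g x = m), ∑ y ∈ P, (if g x = g y then (1 : ℝ) else 0) =
        ((P.filter (fun x => g x = m)).card : ℝ) := by
      intro x hx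
      rw [mem_filter] at hx
      rw [← Finset.sum_filter, Finset.sum_const, nsmul_eq_mul, mul_one]
      congr 2
      ext y
      rw [mem_filter, mem_filter, hx.2]
      constructor
      · rintro ⟨h, h'⟩; exact ⟨h, h'.symm⟩
      · rintro ⟨h, h'⟩; exact ⟨h, h'.symm⟩
    rw [Finset.sum_congr rfl h3, Finset.sum_const, nsmul_eq_mul, sq]
  rw [h2, h1]
  exact sq_sum_le_card_mul_sum_sq

/-- primes with `2 l` digits -/
def AA (b l : ℕ) : Finset ℕ := (Ico (b ^ (2 * l - 1)) (b ^ (2 * l))).filter Nat.Prime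

/-- sums of two reversals -/
def TT (b l : ℕ) : Finset ℕ :=
  (AA b l ×ˢ AA b l).image (fun x => rv b (2 * l) x.1 + rv b (2 * l) x.2)

theorem energy (b : ℕ) (hb : 2 ≤ b) : ∃ K : ℝ, 0 < K ∧ ∃ L1 : ℕ, 1 ≤ L1 ∧ ∀ l : ℕ, L1 ≤ l →
    ((AA b l).card : ℝ) ^ 4 * l ^ 4 ≤ (TT b l).card * (((b : ℝ) ^ (2 * l)) ^ 3 * K ^ 4) := by
  obtain ⟨K, hK, L1, h⟩ := moment b hb
  refine ⟨K, hK, L1 + 1, by omega, ?_⟩
  intro l hl
  obtain ⟨w, hw0, hw1, hw⟩ := h l (by omega)
  have hb0 : (0 : ℝ) < b := by exact_mod_cast (by omega : 0 < b)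
  have hl0 : (0 : ℝ) < l := by exact_mod_cast (by omega : 0 < l)
  have hM : 0 < b ^ (2 * l) := by positivity
  obtain ⟨g, hg⟩ : ∃ g : ℕ × ℕ → ℕ, g = fun x => rv b (2 * l) x.1 + rv b (2 * l) x.2 := ⟨_, rfl⟩
  obtain ⟨I, hI⟩ : ∃ I : Finset ℕ, I = range (b ^ (2 * l)) := ⟨_, rfl⟩
  obtain ⟨Q, hQ⟩ : ∃ Q : Finset ℕ, Q = AA b l := ⟨_, rfl⟩
  have hQI : Q ⊆ I := by
    rw [hQ, hI]
    intro p hp
    unfold AA at hp
    rw [mem_filter, mem_Ico] at hp
    exact mem_range.2 hp.1.2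
  have hQw : ∀ p ∈ Q, w p = 1 := by
    intro p hp
    rw [hQ] at hp
    unfold AA at hp
    rw [mem_filter, mem_Ico] at hp
    exact hw1 p hp.2 hp.1.1
  have h1 := sq_sum (b ^ (2 * l)) hM (I ×ˢ I) (fun x => w x.1 * w x.2)
    (fun x _ => mul_nonneg (hw0 _) (hw0 _)) g
  have h2 : ∑ k ∈ range (b ^ (2 * l)), ‖∑ x ∈ I ×ˢ I, ((w x.1 * w x.2 : ℝ) : ℂ) *
      e (k * (((g x : ℤ) : ℝ) / ((b ^ (2 * l) : ℕ) : ℝ)))‖ ^ 2 =
      ∑ k ∈ range (b ^ (2 * l)), ‖Sw b (2 * l) w k‖ ^ 4 := by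
    apply Finset.sum_congr rfl
    intro k _
    have h3 : ∑ x ∈ I ×ˢ I, ((w x.1 * w x.2 : ℝ) : ℂ) *
        e (k * (((g x : ℤ) : ℝ) / ((b ^ (2 * l) : ℕ) : ℝ))) = Sw b (2 * l) w k ^ 2 := by
      unfold Sw
      rw [sq, Finset.sum_mul_sum, Finset.sum_product, hI]
      apply Finset.sum_congr rfl
      intro m _
      apply Finset.sum_congr rfl
      intro n _
      have h4 : e (k * (((g (m, n) : ℤ) : ℝ) / ((b ^ (2 * l) : ℕ) : ℝ))) =
          e (k * (((rv b (2 * l) m : ℤ) : ℝ) / ((b ^ (2 * l) : ℕ) : ℝ))) *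
          e (k * (((rv b (2 * l) n : ℤ) : ℝ) / ((b ^ (2 * l) : ℕ) : ℝ))) := by
        rw [← e_add, hg]
        congr 1
        push_cast
        ring
      rw [h4]
      push_cast
      ring
    rw [h3, norm_pow, ← pow_mul]
  rw [h2] at h1
  have h3 := h1.trans hw
  obtain ⟨E, hE⟩ : ∃ E : ℝ, E = ∑ x ∈ Q ×ˢ Q, ∑ y ∈ Q ×ˢ Q, (if g x = g y then (1 : ℝ) else 0) :=
    ⟨_, rfl⟩
  have h4 : E ≤ ∑ x ∈ I ×ˢ I, ∑ y ∈ I ×ˢ I,
      (if g x = g y then (w x.1 * w x.2) * (w y.1 * w y.2) else 0) := by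
    rw [hE]
    have hsub : Q ×ˢ Q ⊆ I ×ˢ I := Finset.product_subset_product hQI hQI
    have hnn : ∀ x y : ℕ × ℕ, 0 ≤ (if g x = g y then (w x.1 * w x.2) * (w y.1 * w y.2) else 0) := by
      intro x y
      split_ifs
      · exact mul_nonneg (mul_nonneg (hw0 _) (hw0 _)) (mul_nonneg (hw0 _) (hw0 _))
      · exact le_rfl
    calc _ = ∑ x ∈ Q ×ˢ Q, ∑ y ∈ Q ×ˢ Q,
          (if g x = g y then (w x.1 * w x.2) * (w y.1 * w y.2) else 0) := by
          apply Finset.sum_congr rfl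
          intro x hx
          apply Finset.sum_congr rfl
          intro y hy
          rw [mem_product] at hx hy
          rw [hQw _ hx.1, hQw _ hx.2, hQw _ hy.1, hQw _ hy.2]
          norm_num
      _ ≤ ∑ x ∈ Q ×ˢ Q, ∑ y ∈ I ×ˢ I,
          (if g x = g y then (w x.1 * w x.2) * (w y.1 * w y.2) else 0) := by
          apply Finset.sum_le_sum
          intro x _
          exact Finset.sum_le_sum_of_subset_of_nonneg hsub (fun y _ _ => hnn x y)
      _ ≤ _ := Finset.sum_le_sum_of_subset_of_nonneg hsub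
          (fun x _ _ => Finset.sum_nonneg fun y _ => hnn x y)
  have h5 : (b : ℝ) ^ (2 * l) * E ≤ ((b : ℝ) ^ (2 * l) * (K / l)) ^ 4 := by
    refine le_trans ?_ h3
    push_cast
    exact mul_le_mul_of_nonneg_left h4 (by positivity)
  have h6 := card_energy (Q ×ˢ Q) g
  rw [← hE] at h6
  have h7 : ((Q ×ˢ Q).image g).card = (TT b l).card := by
    unfold TT
    rw [hQ, hg]
  rw [h7, Finset.card_product] at h6
  have h8 : E * l ^ 4 ≤ ((b : ℝ) ^ (2 * l)) ^ 3 * K ^ 4 := by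
    have hMr : (0 : ℝ) < (b : ℝ) ^ (2 * l) := by positivity
    have h9 : (b : ℝ) ^ (2 * l) * (E * l ^ 4) ≤ (b : ℝ) ^ (2 * l) * (((b : ℝ) ^ (2 * l)) ^ 3 * K ^ 4) := by
      have h10 := mul_le_mul_of_nonneg_right h5 (show (0 : ℝ) ≤ (l : ℝ) ^ 4 by positivity)
      have h11 : ((b : ℝ) ^ (2 * l) * (K / l)) ^ 4 * (l : ℝ) ^ 4 =
          (b : ℝ) ^ (2 * l) * (((b : ℝ) ^ (2 * l)) ^ 3 * K ^ 4) := by
        field_simp
      rw [h11] at h10
      linarith
    exact le_of_mul_le_mul_left h9 hMr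
  rw [hQ] at h6
  push_cast at h6
  calc ((AA b l).card : ℝ) ^ 4 * l ^ 4 = (((AA b l).card : ℝ) * (AA b l).card) ^ 2 * l ^ 4 := by ring
    _ ≤ ((TT b l).card * E) * l ^ 4 := mul_le_mul_of_nonneg_right h6 (by positivity)
    _ = (TT b l).card * (E * l ^ 4) := by ring
    _ ≤ _ := mul_le_mul_of_nonneg_left h8 (Nat.cast_nonneg _)

/-- the number of primes with `2 l` digits -/
theorem AA_card (b : ℕ) (hb : 2 ≤ b) : ∃ κ : ℝ, 0 < κ ∧ ∃ L1 : ℕ, ∀ l : ℕ, L1 ≤ l →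
    κ * (b : ℝ) ^ (2 * l) ≤ (AA b l).card * l := by
  obtain ⟨X0, hX0⟩ := Pool.Agent.H96R2.EQP.Pr_lower
  have hb0 : (0 : ℝ) < b := by exact_mod_cast (by omega : 0 < b)
  have hb1 : (1 : ℝ) < b := by exact_mod_cast (by omega : 1 < b)
  have hlb : 0 < Real.log b := Real.log_pos hb1
  refine ⟨1 / (4 * b * Real.log b), by positivity, X0 + 1, ?_⟩
  intro l hl
  have hl0 : (0 : ℝ) < l := by exact_mod_cast (by omega : 0 < l)
  have hX : X0 ≤ b ^ (2 * l - 1) := by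
    have h1 : 2 * l - 1 < 2 ^ (2 * l - 1) := Nat.lt_two_pow_self
    have h2 : 2 ^ (2 * l - 1) ≤ b ^ (2 * l - 1) := Nat.pow_le_pow_left hb _
    omega
  have h1 := hX0 _ hX
  have h2 : Pool.Agent.H361R2.PP.Pr (b ^ (2 * l - 1)) ≤ ((AA b l).card : ℝ) := by
    unfold Pool.Agent.H361R2.PP.Pr AA
    have : ((Ico (b ^ (2 * l - 1)) (2 * b ^ (2 * l - 1))).filter Nat.Prime).card ≤
        ((Ico (b ^ (2 * l - 1)) (b ^ (2 * l))).filter Nat.Prime).card := by
      apply Finset.card_le_card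
      apply Finset.filter_subset_filter
      apply Finset.Ico_subset_Ico_right
      have h3 : b ^ (2 * l) = b * b ^ (2 * l - 1) := by
        rw [← pow_succ']; congr 1; omega
      rw [h3]
      exact Nat.mul_le_mul_right _ hb
    exact_mod_cast this
  have h3 := h1.trans h2
  have h4 : Real.log ((b ^ (2 * l - 1) : ℕ) : ℝ) ≤ 2 * l * Real.log b := by
    push_cast
    rw [Real.log_pow]
    apply mul_le_mul_of_nonneg_right _ hlb.le
    have : 2 * l - 1 ≤ 2 * l := by omega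
    exact_mod_cast this
  have h5 : 0 < Real.log ((b ^ (2 * l - 1) : ℕ) : ℝ) := by
    apply Real.log_pos
    have : 1 < b ^ (2 * l - 1) := Nat.one_lt_pow (by omega) (by omega)
    exact_mod_cast this
  rw [div_le_iff₀ (by positivity)] at h3
  have h6 : (b : ℝ) ^ (2 * l) = b * ((b ^ (2 * l - 1) : ℕ) : ℝ) := by
    push_cast
    rw [← pow_succ']; congr 1; omega
  rw [h6]
  have h7 : ((AA b l).card : ℝ) * (2 * Real.log ((b ^ (2 * l - 1) : ℕ) : ℝ)) ≤
      (AA b l).card * (2 * (2 * l * Real.log b)) := by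
    apply mul_le_mul_of_nonneg_left _ (Nat.cast_nonneg _)
    linarith
  have h8 := h3.trans h7
  calc 1 / (4 * (b : ℝ) * Real.log b) * (b * ((b ^ (2 * l - 1) : ℕ) : ℝ))
      = ((b ^ (2 * l - 1) : ℕ) : ℝ) / (4 * Real.log b) := by field_simp
    _ ≤ ((AA b l).card * (2 * (2 * l * Real.log b))) / (4 * Real.log b) :=
        div_le_div_of_nonneg_right h8 (by positivity)
    _ = (AA b l).card * l := by field_simp; norm_num

/-- the sums of two reversals have positive density -/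
theorem TT_card (b : ℕ) (hb : 2 ≤ b) : ∃ κ : ℝ, 0 < κ ∧ ∃ L1 : ℕ, ∀ l : ℕ, L1 ≤ l →
    κ * (b : ℝ) ^ (2 * l) ≤ (TT b l).card := by
  have hb0 : (0 : ℝ) < b := by exact_mod_cast (by omega : 0 < b)
  obtain ⟨K, hK, L1, _, h1⟩ := energy b hb
  obtain ⟨κ, hκ, L2, h2⟩ := AA_card b hb
  refine ⟨(κ / K) ^ 4, by positivity, max L1 L2, ?_⟩
  intro l hl
  have h3 := h1 l (le_trans (le_max_left _ _) hl)
  have h4 := h2 l (le_trans (le_max_right _ _) hl)
  have hM : (0 : ℝ) < (b : ℝ) ^ (2 * l) := by positivity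
  have h5 : (κ * (b : ℝ) ^ (2 * l)) ^ 4 ≤ (TT b l).card * (((b : ℝ) ^ (2 * l)) ^ 3 * K ^ 4) := by
    refine le_trans ?_ h3
    rw [← mul_pow]
    exact pow_le_pow_left₀ (by positivity) h4 4
  have h6 : (κ / K) ^ 4 * (b : ℝ) ^ (2 * l) =
      (κ * (b : ℝ) ^ (2 * l)) ^ 4 / (((b : ℝ) ^ (2 * l)) ^ 3 * K ^ 4) := by
    field_simp
  rw [h6, div_le_iff₀ (by positivity)]
  exact h5

end Pool.Agent.X35.RP
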