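import Mathlib

/-!
# Exponential sums over digit reversals

`rv b L n` is the reverse of the `L` lowest digits of `n` in base `b`.
-/

set_option autoImplicit false

open Finset

namespace Pool.Agent.X35.RP

/-- `exp (2 π i x)` -/
noncomputable def e (x : ℝ) : ℂ := Complex.exp ((2 * Real.pi * x : ℝ) * Complex.I)

theorem e_add (x y : ℝ) : e (x + y) = e x * e y := by
  unfold e
  rw [← Complex.exp_add]
  congr 1
  push_cast
  ring

theorem e_zero : e 0 = 1 := by
  unfold e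
  simp

theorem norm_e (x : ℝ) : ‖e x‖ = 1 := by
  unfold e
  exact Complex.norm_exp_ofReal_mul_I _

theorem e_int (n : ℤ) : e n = 1 := by
  unfold e
  rw [Complex.exp_eq_one_iff]
  exact ⟨n, by push_cast; ring⟩

theorem e_nat (n : ℕ) : e n = 1 := by
  have := e_int n
  exact_mod_cast this

theorem e_mul_nat (x : ℝ) (n : ℕ) : e (n * x) = e x ^ n := by
  unfold e
  rw [← Complex.exp_nat_mul]
  congr 1
  push_cast
  ring

theorem conj_e (x : ℝ) : (starRingEnd ℂ) (e x) = e (-x) := by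
  unfold e
  rw [← Complex.exp_conj]
  congr 1
  rw [map_mul, Complex.conj_ofReal, Complex.conj_I]
  push_cast
  ring

theorem e_eq_one_iff (x : ℝ) : e x = 1 ↔ ∃ n : ℤ, x = n := by
  unfold e
  rw [Complex.exp_eq_one_iff]
  constructor
  · rintro ⟨n, hn⟩
    refine ⟨n, ?_⟩
    have h1 : ((2 * Real.pi * x : ℝ) : ℂ) * Complex.I = ((2 * Real.pi * n : ℝ) : ℂ) * Complex.I := by
      rw [hn]; push_cast; ring
    have h2 := mul_right_cancel₀ Complex.I_ne_zero h1
    have h3 : 2 * Real.pi * x = 2 * Real.pi * n := by exact_mod_cast h2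
    exact mul_left_cancel₀ (by positivity) h3
  · rintro ⟨n, rfl⟩
    exact ⟨n, by push_cast; ring⟩

/-- orthogonality -/
theorem sum_e (N : ℕ) (hN : 0 < N) (m : ℤ) :
    ∑ k ∈ range N, e (k * (m / N)) = if (N : ℤ) ∣ m then (N : ℂ) else 0 := by
  have hN0 : (N : ℝ) ≠ 0 := by exact_mod_cast hN.ne'
  split_ifs with h
  · obtain ⟨c, rfl⟩ := h
    have : ∀ k ∈ range N, e (k * (((N * c : ℤ) : ℝ) / N)) = 1 := by
      intro k _
      have h1 : (k : ℝ) * (((N * c : ℤ) : ℝ) / N) = ((k * c : ℤ) : ℝ) := by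
        push_cast
        field_simp
      rw [h1, e_int]
    rw [sum_congr rfl this]
    simp
  · have h1 : e ((m : ℝ) / N) ≠ 1 := by
      intro h2
      obtain ⟨n, hn⟩ := (e_eq_one_iff _).1 h2
      apply h
      refine ⟨n, ?_⟩
      rw [div_eq_iff hN0] at hn
      have : (m : ℝ) = ((N * n : ℤ) : ℝ) := by rw [hn]; push_cast; ring
      exact_mod_cast this
    have h2 : ∀ k ∈ range N, e (k * ((m : ℝ) / N)) = e ((m : ℝ) / N) ^ k := fun k _ => e_mul_nat _ _
    rw [sum_congr rfl h2, geom_sum_eq h1]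
    have h3 : e ((m : ℝ) / N) ^ N = 1 := by
      rw [← e_mul_nat]
      have : (N : ℝ) * ((m : ℝ) / N) = m := by field_simp
      rw [this, e_int]
    rw [h3]
    simp

/-- reverse of the lowest `L` digits -/
def rv (b : ℕ) : ℕ → ℕ → ℕ
  | 0, _ => 0
  | L + 1, n => (n % b) * b ^ L + rv b L (n / b)

theorem rv_lt (b : ℕ) (hb : 0 < b) (L n : ℕ) : rv b L n < b ^ L := by
  induction L generalizing n with
  | zero => simp [rv]
  | succ L ih =>
    rw [rv, pow_succ]
    have h1 := ih (n / b)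
    have h2 : n % b + 1 ≤ b := Nat.mod_lt _ hb
    calc n % b * b ^ L + rv b L (n / b) < n % b * b ^ L + b ^ L := by omega
      _ = (n % b + 1) * b ^ L := by ring
      _ ≤ b * b ^ L := Nat.mul_le_mul_right _ h2
      _ = b ^ L * b := by ring

theorem rv_inj (b : ℕ) (hb : 0 < b) (L : ℕ) : ∀ m n : ℕ, m < b ^ L → n < b ^ L →
    rv b L m = rv b L n → m = n := by
  induction L with
  | zero => intro m n hm hn _; rw [pow_zero] at hm hn; omega
  | succ L ih =>
    intro m n hm hn h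
    rw [rv, rv] at h
    have hm1 := rv_lt b hb L (m / b)
    have hn1 := rv_lt b hb L (n / b)
    have hp : 0 < b ^ L := pow_pos hb L
    have h1 : m % b = n % b := by
      have e1 : (m % b * b ^ L + rv b L (m / b)) / b ^ L = m % b := by
        rw [mul_comm, Nat.mul_add_div hp, Nat.div_eq_of_lt hm1, add_zero]
      have e2 : (n % b * b ^ L + rv b L (n / b)) / b ^ L = n % b := by
        rw [mul_comm, Nat.mul_add_div hp, Nat.div_eq_of_lt hn1, add_zero]
      rw [← e1, ← e2, h]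
    rw [h1] at h
    have h2 : rv b L (m / b) = rv b L (n / b) := by omega
    have h3 : ∀ t : ℕ, t < b ^ (L + 1) → t / b < b ^ L := by
      intro t ht
      rw [Nat.div_lt_iff_lt_mul hb]
      rw [pow_succ] at ht
      exact ht
    have h4 := ih _ _ (h3 m hm) (h3 n hn) h2
    rw [← Nat.div_add_mod m b, ← Nat.div_add_mod n b, h4, h1]

/-- `∑ e (ε t)` over the digits `ε` -/
noncomputable def phi (b : ℕ) (t : ℝ) : ℂ := ∑ x ∈ range b, e (x * t)

/-- the exponential sum -/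
noncomputable def H (b L : ℕ) (r α : ℝ) : ℂ :=
  ∑ n ∈ range (b ^ L), e (r * n + α * rv b L n)

theorem sum_range_mul {M : Type*} [AddCommMonoid M] (b N : ℕ) (hb : 0 < b) (f : ℕ → M) :
    ∑ n ∈ range (b * N), f n = ∑ m ∈ range N, ∑ x ∈ range b, f (x + b * m) := by
  rw [← Finset.sum_product']
  symm
  apply Finset.sum_nbij' (i := fun y : ℕ × ℕ => y.2 + b * y.1) (j := fun n => (n / b, n % b))
  · rintro ⟨m, x⟩ h
    rw [mem_product, mem_range, mem_range] at h
    rw [mem_range]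
    simp only at h ⊢
    have : b * (m + 1) ≤ b * N := Nat.mul_le_mul_left _ h.1
    rw [mul_add, mul_one] at this
    omega
  · intro n hn
    rw [mem_range] at hn
    rw [mem_product, mem_range, mem_range]
    exact ⟨Nat.div_lt_of_lt_mul hn, Nat.mod_lt _ hb⟩
  · rintro ⟨m, x⟩ h
    rw [mem_product, mem_range, mem_range] at h
    simp only at h ⊢
    rw [Nat.add_mul_div_left _ _ hb, Nat.div_eq_of_lt h.2, Nat.add_mul_mod_self_left,
      Nat.mod_eq_of_lt h.2, zero_add]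
  · intro n _
    simp only
    exact Nat.mod_add_div n b
  · rintro ⟨m, x⟩ _
    rfl

theorem sum_range_mul' {M : Type*} [AddCommMonoid M] (b N : ℕ) (hN : 0 < N) (f : ℕ → M) :
    ∑ n ∈ range (b * N), f n = ∑ m ∈ range N, ∑ x ∈ range b, f (m + N * x) := by
  rw [mul_comm, sum_range_mul N b hN, Finset.sum_comm]

theorem H_zero (b : ℕ) (r α : ℝ) : H b 0 r α = 1 := by
  unfold H
  simp [rv, e_zero]

theorem H_succ (b : ℕ) (hb : 0 < b) (L : ℕ) (r α : ℝ) :
    H b (L + 1) r α = phi b (r + α * b ^ L) * H b L (b * r) α := by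
  unfold H phi
  rw [pow_succ, mul_comm (b ^ L) b, sum_range_mul b _ hb, Finset.sum_comm, Finset.sum_mul]
  apply Finset.sum_congr rfl
  intro x hx
  rw [Finset.mul_sum]
  apply Finset.sum_congr rfl
  intro m _
  rw [mem_range] at hx
  rw [← e_add]
  congr 1
  have h1 : rv b (L + 1) (x + b * m) = x * b ^ L + rv b L m := by
    rw [rv, Nat.add_mul_mod_self_left, Nat.mod_eq_of_lt hx, Nat.add_mul_div_left _ _ hb,
      Nat.div_eq_of_lt hx, zero_add]
  rw [h1]
  push_cast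
  ring

theorem H_prod (b : ℕ) (hb : 0 < b) (L : ℕ) (r α : ℝ) :
    H b L r α = ∏ j ∈ range L, phi b (b ^ j * r + α * b ^ (L - 1 - j)) := by
  induction L generalizing r with
  | zero => rw [H_zero]; simp
  | succ L ih =>
    rw [H_succ b hb, ih, Finset.prod_range_succ', mul_comm]
    congr 1
    · apply Finset.prod_congr rfl
      intro j hj
      rw [mem_range] at hj
      congr 1
      have : L + 1 - 1 - (j + 1) = L - 1 - j := by omega
      rw [this, pow_succ]
      ring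
    · simp

/-- the factors of the absolute value -/
noncomputable def P (b L : ℕ) (r : ℝ) (k : ℕ) : ℝ :=
  ∏ j ∈ range L, ‖phi b (b ^ j * r + k / b ^ (j + 1))‖

theorem norm_H (b : ℕ) (hb : 0 < b) (L : ℕ) (r : ℝ) (k : ℕ) :
    ‖H b L r (k / b ^ L)‖ = P b L r k := by
  rw [H_prod b hb, norm_prod]
  unfold P
  apply Finset.prod_congr rfl
  intro j hj
  rw [mem_range] at hj
  congr 3
  have hb0 : (b : ℝ) ≠ 0 := by exact_mod_cast hb.ne'
  have : L = (L - 1 - j) + (j + 1) := by omega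
  rw [div_mul_eq_mul_div, div_eq_div_iff (by positivity) (by positivity), mul_assoc, ← pow_add,
    ← this]

theorem phi_add_int (b : ℕ) (t : ℝ) (n : ℤ) : phi b (t + n) = phi b t := by
  unfold phi
  apply Finset.sum_congr rfl
  intro x _
  have : (x : ℝ) * (t + n) = x * t + ((x * n : ℤ) : ℝ) := by push_cast; ring
  rw [this, e_add, e_int, mul_one]

/-- `sin ^ 2 (π x)` -/
noncomputable def sg (x : ℝ) : ℝ := Real.sin (Real.pi * x) ^ 2

theorem sg_nonneg (x : ℝ) : 0 ≤ sg x := sq_nonneg _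

theorem sg_add_int (x : ℝ) (n : ℤ) : sg (x + n) = sg x := by
  unfold sg
  have h1 : Real.pi * (x + n) = Real.pi * x + n * Real.pi := by ring
  rw [h1, Real.sin_add, Real.sin_int_mul_pi, mul_zero, add_zero, mul_pow]
  have h2 : Real.cos (n * Real.pi) ^ 2 = 1 := by
    have := Real.sin_sq_add_cos_sq (n * Real.pi)
    rw [Real.sin_int_mul_pi] at this
    linarith
  rw [h2, mul_one]

theorem sg_add_le (x y : ℝ) : sg (x + y) ≤ 2 * sg x + 2 * sg y := by
  unfold sg
  rw [mul_add, Real.sin_add]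
  have h1 := Real.sin_sq_add_cos_sq (Real.pi * x)
  have h2 := Real.sin_sq_add_cos_sq (Real.pi * y)
  set s := Real.sin (Real.pi * x)
  set c := Real.cos (Real.pi * x)
  set s' := Real.sin (Real.pi * y)
  set c' := Real.cos (Real.pi * y)
  have h3 : c' ^ 2 = 1 - s' ^ 2 := by linarith
  have h4 : c ^ 2 = 1 - s ^ 2 := by linarith
  have h5 : (s * c' + c * s') ^ 2 ≤ 2 * (s * c') ^ 2 + 2 * (c * s') ^ 2 := by
    nlinarith [sq_nonneg (s * c' - c * s')]
  have h6 : (s * c') ^ 2 = s ^ 2 * (1 - s' ^ 2) := by rw [mul_pow, h3]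
  have h7 : (c * s') ^ 2 = (1 - s ^ 2) * s' ^ 2 := by rw [mul_pow, h4]
  have h8 : 0 ≤ s ^ 2 * s' ^ 2 := by positivity
  nlinarith

theorem sg_neg (x : ℝ) : sg (-x) = sg x := by
  unfold sg
  rw [mul_neg, Real.sin_neg, neg_sq]

theorem abs_sin_nat_mul_le (n : ℕ) (x : ℝ) : |Real.sin (n * x)| ≤ n * |Real.sin x| := by
  induction n with
  | zero => simp
  | succ n ih =>
    have h1 : ((n + 1 : ℕ) : ℝ) * x = n * x + x := by push_cast; ring
    rw [h1, Real.sin_add]
    have h2 : |Real.sin (n * x) * Real.cos x| ≤ |Real.sin (n * x)| := by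
      rw [abs_mul]
      exact mul_le_of_le_one_right (abs_nonneg _) (Real.abs_cos_le_one x)
    have h3 : |Real.cos (n * x) * Real.sin x| ≤ |Real.sin x| := by
      rw [abs_mul]
      exact mul_le_of_le_one_left (abs_nonneg _) (Real.abs_cos_le_one _)
    have h4 := abs_add_le (Real.sin (n * x) * Real.cos x) (Real.cos (n * x) * Real.sin x)
    push_cast
    linarith

theorem sg_nat_mul_le (n : ℕ) (x : ℝ) : sg (n * x) ≤ n ^ 2 * sg x := by
  unfold sg
  have h1 : Real.pi * (n * x) = n * (Real.pi * x) := by ring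
  have h2 := abs_sin_nat_mul_le n (Real.pi * x)
  have h3 := pow_le_pow_left₀ (abs_nonneg _) h2 2
  rw [h1, ← sq_abs (Real.sin (n * (Real.pi * x))), ← sq_abs (Real.sin (Real.pi * x))]
  calc _ ≤ (n * |Real.sin (Real.pi * x)|) ^ 2 := h3
    _ = _ := by ring

theorem norm_one_add_e (t : ℝ) : ‖1 + e t‖ = 2 * |Real.cos (Real.pi * t)| := by
  have h1 : 1 + e t = e (t / 2) * ((2 * Real.cos (Real.pi * t) : ℝ) : ℂ) := by
    have h2 : ((2 * Real.cos (Real.pi * t) : ℝ) : ℂ) = e (t / 2) + e (-(t / 2)) := by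
      unfold e
      have h3 := Complex.two_cos ((Real.pi * t : ℝ) : ℂ)
      push_cast at h3 ⊢
      rw [h3]
      congr 2 <;> · ring
    rw [h2, mul_add, ← e_add, ← e_add]
    have h4 : t / 2 + t / 2 = t := by ring
    have h5 : t / 2 + -(t / 2) = 0 := by ring
    rw [h4, h5, e_zero, add_comm]
  rw [h1, norm_mul, norm_e, one_mul, Complex.norm_real, Real.norm_eq_abs, abs_mul]
  norm_num

theorem phi_le (b : ℕ) (hb : 2 ≤ b) (t : ℝ) : ‖phi b t‖ ^ 2 ≤ b ^ 2 - 4 * sg t := by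
  obtain ⟨c, rfl⟩ : ∃ c, b = c + 2 := ⟨b - 2, by omega⟩
  have h1 : ‖phi (c + 2) t‖ ≤ 2 * |Real.cos (Real.pi * t)| + c := by
    unfold phi
    rw [Finset.sum_range_succ', Finset.sum_range_succ']
    have h2 : ∑ k ∈ range c, e (((k + 1 + 1 : ℕ) : ℝ) * t) + e (((0 + 1 : ℕ) : ℝ) * t) +
        e (((0 : ℕ) : ℝ) * t) = ∑ k ∈ range c, e (((k + 1 + 1 : ℕ) : ℝ) * t) + (1 + e t) := by
      simp only [Nat.cast_zero, zero_add, Nat.cast_one, one_mul, zero_mul, e_zero]
      ring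
    rw [h2]
    have h3 : ‖∑ k ∈ range c, e (((k + 1 + 1 : ℕ) : ℝ) * t)‖ ≤ c := by
      refine (norm_sum_le _ _).trans ?_
      simp only [norm_e]
      simp
    have h4 := norm_add_le (∑ k ∈ range c, e (((k + 1 + 1 : ℕ) : ℝ) * t)) (1 + e t)
    rw [norm_one_add_e] at h4
    linarith
  have h5 : ‖phi (c + 2) t‖ ^ 2 ≤ (2 * |Real.cos (Real.pi * t)| + c) ^ 2 :=
    pow_le_pow_left₀ (norm_nonneg _) h1 2
  refine h5.trans ?_
  unfold sg
  have h6 := Real.sin_sq_add_cos_sq (Real.pi * t)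
  rw [← sq_abs (Real.cos _)] at h6
  have h7 : |Real.cos (Real.pi * t)| ≤ 1 := Real.abs_cos_le_one _
  have h8 : 0 ≤ |Real.cos (Real.pi * t)| := abs_nonneg _
  set u := |Real.cos (Real.pi * t)|
  have h9 : Real.sin (Real.pi * t) ^ 2 = 1 - u ^ 2 := by linarith
  rw [h9]
  push_cast
  have h10 : (0 : ℝ) ≤ c := Nat.cast_nonneg c
  nlinarith [mul_nonneg h10 (sub_nonneg.2 h7)]

theorem phi_le_exp (b : ℕ) (hb : 2 ≤ b) (t : ℝ) :
    ‖phi b t‖ ^ 2 ≤ b ^ 2 * Real.exp (-(4 / b ^ 2 * sg t)) := by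
  have hb0 : (0 : ℝ) < b := by exact_mod_cast (by omega : 0 < b)
  have h1 := Real.one_sub_le_exp_neg (4 / b ^ 2 * sg t)
  have h2 : (b : ℝ) ^ 2 * (1 - 4 / b ^ 2 * sg t) ≤ b ^ 2 * Real.exp (-(4 / b ^ 2 * sg t)) :=
    mul_le_mul_of_nonneg_left h1 (by positivity)
  have h3 : (b : ℝ) ^ 2 * (1 - 4 / b ^ 2 * sg t) = b ^ 2 - 4 * sg t := by
    field_simp
  rw [h3] at h2
  exact (phi_le b hb t).trans h2

theorem phi_le_one (b : ℕ) (hb : 2 ≤ b) (t : ℝ) : ‖phi b t‖ ^ 2 ≤ b ^ 2 := by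
  have := phi_le b hb t
  have := sg_nonneg t
  linarith

/-- Parseval on the cosets of `ℤ / b` -/
theorem parseval (b : ℕ) (hb : 0 < b) (t : ℝ) :
    ∑ k ∈ range b, ‖phi b (t + k / b)‖ ^ 2 = (b : ℝ) ^ 2 := by
  have hb0 : (b : ℝ) ≠ 0 := by exact_mod_cast hb.ne'
  have h1 : ∀ k ∈ range b, ((‖phi b (t + k / b)‖ ^ 2 : ℝ) : ℂ) =
      ∑ x ∈ range b, ∑ y ∈ range b, e ((x - y) * t) * e (k * (((x - y : ℤ) : ℝ) / b)) := by
    intro k _
    rw [← Complex.normSq_eq_norm_sq, Complex.normSq_eq_conj_mul_self, mul_comm]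
    unfold phi
    rw [map_sum, Finset.sum_mul_sum]
    apply Finset.sum_congr rfl
    intro x _
    apply Finset.sum_congr rfl
    intro y _
    rw [conj_e, ← e_add, ← e_add]
    congr 1
    push_cast
    ring
  have h2 : ((∑ k ∈ range b, ‖phi b (t + k / b)‖ ^ 2 : ℝ) : ℂ) = ((b : ℝ) ^ 2 : ℝ) := by
    rw [Complex.ofReal_sum, Finset.sum_congr rfl h1, Finset.sum_comm]
    have h3 : ∀ x ∈ range b, (∑ k ∈ range b, ∑ y ∈ range b,
        e ((x - y) * t) * e (k * (((x - y : ℤ) : ℝ) / b))) = (b : ℂ) := by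
      intro x hx
      rw [Finset.sum_comm]
      have h4 : ∀ y ∈ range b, (∑ k ∈ range b,
          e ((x - y) * t) * e (k * (((x - y : ℤ) : ℝ) / b))) = if x = y then (b : ℂ) else 0 := by
        intro y hy
        rw [← Finset.mul_sum, sum_e b hb]
        rw [mem_range] at hx hy
        by_cases hxy : x = y
        · subst hxy
          simp [e_zero]
        · rw [if_neg hxy, if_neg, mul_zero]
          intro h5
          obtain ⟨c, hc⟩ := h5
          have h6 : |(x : ℤ) - y| < b := by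
            rw [abs_lt]; constructor <;> omega
          rw [hc, abs_mul] at h6
          have h7 : c = 0 := by
            by_contra h8
            have h9 : 1 ≤ |c| := Int.one_le_abs h8
            have : (b : ℤ) * 1 ≤ |(b : ℤ)| * |c| := by
              apply mul_le_mul _ h9 (by norm_num) (abs_nonneg _)
              exact le_abs_self _
            omega
          rw [h7, mul_zero] at hc
          apply hxy
          omega
      rw [Finset.sum_congr rfl h4, Finset.sum_ite_eq, if_pos hx]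
    rw [Finset.sum_congr rfl h3]
    simp [sq]
  exact_mod_cast h2

theorem four_le (b : ℕ) (hb : 2 ≤ b) (y : ℝ) :
    ∑ k ∈ range b, ‖phi b (y + k / b)‖ ^ 4 ≤ b ^ 4 * Real.exp (-(4 / b ^ 4 * sg (b * y))) := by
  have hb0 : (0 : ℝ) < b := by exact_mod_cast (by omega : 0 < b)
  have h1 : ∀ k ∈ range b, ‖phi b (y + k / b)‖ ^ 4 ≤
      (b ^ 2 * Real.exp (-(4 / b ^ 4 * sg (b * y)))) * ‖phi b (y + k / b)‖ ^ 2 := by
    intro k _
    have h2 : ‖phi b (y + k / b)‖ ^ 4 = ‖phi b (y + k / b)‖ ^ 2 * ‖phi b (y + k / b)‖ ^ 2 := by ring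
    rw [h2]
    apply mul_le_mul_of_nonneg_right _ (by positivity)
    refine (phi_le_exp b hb _).trans ?_
    apply mul_le_mul_of_nonneg_left _ (by positivity)
    apply Real.exp_le_exp.2
    have h3 : sg (b * y) ≤ b ^ 2 * sg (y + k / b) := by
      have h4 : (b : ℝ) * y = b * (y + k / b) + ((-(k : ℤ) : ℤ) : ℝ) := by
        push_cast
        field_simp
        ring
      rw [h4, sg_add_int]
      exact sg_nat_mul_le b _
    have h5 : 4 / (b : ℝ) ^ 4 * sg (b * y) ≤ 4 / b ^ 4 * (b ^ 2 * sg (y + k / b)) :=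
      mul_le_mul_of_nonneg_left h3 (by positivity)
    have h6 : 4 / (b : ℝ) ^ 4 * (b ^ 2 * sg (y + k / b)) = 4 / b ^ 2 * sg (y + k / b) := by
      field_simp
    linarith
  refine (Finset.sum_le_sum h1).trans ?_
  rw [← Finset.mul_sum, parseval b (by omega)]
  apply le_of_eq
  ring

/-- the fourth moment -/
noncomputable def SS (b L : ℕ) (r : ℝ) : ℝ := ∑ k ∈ range (b ^ L), P b L r k ^ 4

theorem P_nonneg (b L : ℕ) (r : ℝ) (k : ℕ) : 0 ≤ P b L r k :=
  Finset.prod_nonneg fun _ _ => norm_nonneg _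

theorem P_succ (b L : ℕ) (r : ℝ) (k : ℕ) :
    P b (L + 1) r k = P b L r k * ‖phi b (b ^ L * r + k / b ^ (L + 1))‖ := by
  unfold P
  rw [Finset.prod_range_succ]

theorem P_add (b : ℕ) (hb : 0 < b) (L : ℕ) (r : ℝ) (k x : ℕ) :
    P b L r (k + b ^ L * x) = P b L r k := by
  have hb0 : (b : ℝ) ≠ 0 := by exact_mod_cast hb.ne'
  unfold P
  apply Finset.prod_congr rfl
  intro j hj
  rw [mem_range] at hj
  have h1 : (b : ℝ) ^ j * r + ((k + b ^ L * x : ℕ) : ℝ) / b ^ (j + 1) =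
      (b ^ j * r + k / b ^ (j + 1)) + (((b ^ (L - (j + 1)) * x : ℕ) : ℤ) : ℝ) := by
    have h2 : (b : ℝ) ^ L = b ^ (L - (j + 1)) * b ^ (j + 1) := by
      rw [← pow_add]; congr 1; omega
    push_cast
    rw [h2]
    field_simp
    ring
  rw [h1, phi_add_int]

theorem SS_succ (b : ℕ) (hb : 0 < b) (L : ℕ) (r : ℝ) :
    SS b (L + 1) r = ∑ k ∈ range (b ^ L), P b L r k ^ 4 *
      ∑ x ∈ range b, ‖phi b ((b ^ L * r + k / b ^ (L + 1)) + x / b)‖ ^ 4 := by
  have hb0 : (b : ℝ) ≠ 0 := by exact_mod_cast hb.ne'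
  unfold SS
  rw [pow_succ, mul_comm (b ^ L) b, sum_range_mul' b _ (pow_pos hb L)]
  apply Finset.sum_congr rfl
  intro k _
  rw [Finset.mul_sum]
  apply Finset.sum_congr rfl
  intro x _
  rw [P_succ, P_add b hb, mul_pow]
  congr 4
  push_cast
  rw [pow_succ]
  field_simp
  ring

theorem SS_two (b : ℕ) (hb : 2 ≤ b) (L : ℕ) (r : ℝ) :
    SS b (L + 2) r ≤ b ^ 8 * Real.exp (-(2 / b ^ 4 * sg (b ^ L * (b ^ 2 - 1) * r))) * SS b L r := by
  have hb1 : 0 < b := by omega
  have hb0 : (0 : ℝ) < b := by exact_mod_cast hb1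
  have hbne : (b : ℝ) ≠ 0 := hb0.ne'
  rw [SS_succ b hb1]
  have h1 : ∀ k ∈ range (b ^ (L + 1)), P b (L + 1) r k ^ 4 *
      ∑ x ∈ range b, ‖phi b ((b ^ (L + 1) * r + k / b ^ (L + 1 + 1)) + x / b)‖ ^ 4 ≤
      P b (L + 1) r k ^ 4 * (b ^ 4 * Real.exp (-(4 / b ^ 4 *
        sg (b * (b ^ (L + 1) * r + k / b ^ (L + 1 + 1)))))) := fun k _ =>
    mul_le_mul_of_nonneg_left (four_le b hb _) (by have := P_nonneg b (L + 1) r k; positivity)
  refine (Finset.sum_le_sum h1).trans ?_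
  rw [pow_succ, mul_comm (b ^ L) b, sum_range_mul' b _ (pow_pos hb1 L)]
  unfold SS
  rw [Finset.mul_sum]
  apply Finset.sum_le_sum
  intro k _
  obtain ⟨t, ht⟩ : ∃ t : ℝ, t = b ^ L * r + k / b ^ (L + 1) := ⟨_, rfl⟩
  obtain ⟨β, hβ⟩ : ∃ β : ℝ, β = b ^ L * (b ^ 2 - 1) * r := ⟨_, rfl⟩
  have h2 : ∀ x ∈ range b, P b (L + 1) r (k + b ^ L * x) ^ 4 * (b ^ 4 * Real.exp (-(4 / b ^ 4 *
        sg (b * (b ^ (L + 1) * r + ((k + b ^ L * x : ℕ) : ℝ) / b ^ (L + 1 + 1)))))) ≤
      P b L r k ^ 4 * (b ^ 6 * Real.exp (-(2 / b ^ 4 * sg β))) * ‖phi b (t + x / b)‖ ^ 2 := by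
    intro x _
    rw [P_succ, P_add b hb1, mul_pow]
    have e1 : (b : ℝ) ^ L * r + ((k + b ^ L * x : ℕ) : ℝ) / b ^ (L + 1) = t + x / b := by
      rw [ht]; push_cast; rw [pow_succ]; field_simp; ring
    have e2 : (b : ℝ) * (b ^ (L + 1) * r + ((k + b ^ L * x : ℕ) : ℝ) / b ^ (L + 1 + 1)) =
        (t + x / b) + β := by
      rw [ht, hβ]; push_cast
      rw [pow_succ, pow_succ, pow_succ]; field_simp; ring
    rw [e1, e2]
    obtain ⟨s, hs⟩ : ∃ s : ℝ, s = t + x / b := ⟨_, rfl⟩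
    rw [← hs]
    have h3 : ‖phi b s‖ ^ 4 ≤ b ^ 2 * Real.exp (-(4 / b ^ 2 * sg s)) * ‖phi b s‖ ^ 2 := by
      have h4 : ‖phi b s‖ ^ 4 = ‖phi b s‖ ^ 2 * ‖phi b s‖ ^ 2 := by ring
      rw [h4]
      exact mul_le_mul_of_nonneg_right (phi_le_exp b hb s) (by positivity)
    have h5 : Real.exp (-(4 / b ^ 2 * sg s)) * Real.exp (-(4 / b ^ 4 * sg (s + β))) ≤
        Real.exp (-(2 / b ^ 4 * sg β)) := by
      rw [← Real.exp_add]
      apply Real.exp_le_exp.2
      have h6 : sg β ≤ 2 * sg (s + β) + 2 * sg s := by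
        have h7 := sg_add_le (s + β) (-s)
        rw [sg_neg] at h7
        have h8 : s + β + -s = β := by ring
        rw [h8] at h7
        exact h7
      have h9 : 4 / (b : ℝ) ^ 4 * sg s ≤ 4 / b ^ 2 * sg s := by
        apply mul_le_mul_of_nonneg_right _ (sg_nonneg _)
        apply div_le_div_of_nonneg_left (by norm_num) (by positivity)
        apply pow_le_pow_right₀ _ (by norm_num)
        exact_mod_cast hb1
      have h10 : 2 / (b : ℝ) ^ 4 * sg β ≤ 2 / b ^ 4 * (2 * sg (s + β) + 2 * sg s) :=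
        mul_le_mul_of_nonneg_left h6 (by positivity)
      have h11 : 2 / (b : ℝ) ^ 4 * (2 * sg (s + β) + 2 * sg s) =
          4 / b ^ 4 * sg (s + β) + 4 / b ^ 4 * sg s := by ring
      linarith
    have hP : 0 ≤ P b L r k ^ 4 := by have := P_nonneg b L r k; positivity
    calc P b L r k ^ 4 * ‖phi b s‖ ^ 4 * (b ^ 4 * Real.exp (-(4 / b ^ 4 * sg (s + β))))
        ≤ P b L r k ^ 4 * (b ^ 2 * Real.exp (-(4 / b ^ 2 * sg s)) * ‖phi b s‖ ^ 2) *
          (b ^ 4 * Real.exp (-(4 / b ^ 4 * sg (s + β)))) := by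
            apply mul_le_mul_of_nonneg_right _ (by positivity)
            exact mul_le_mul_of_nonneg_left h3 hP
      _ = P b L r k ^ 4 * (b ^ 6 * (Real.exp (-(4 / b ^ 2 * sg s)) *
          Real.exp (-(4 / b ^ 4 * sg (s + β))))) * ‖phi b s‖ ^ 2 := by ring
      _ ≤ _ := by
          apply mul_le_mul_of_nonneg_right _ (by positivity)
          apply mul_le_mul_of_nonneg_left _ hP
          exact mul_le_mul_of_nonneg_left h5 (by positivity)
  refine (Finset.sum_le_sum h2).trans ?_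
  rw [← Finset.mul_sum, parseval b hb1, ← hβ]
  apply le_of_eq
  ring

/-- the bound for the fourth moment -/
theorem SS_le (b : ℕ) (hb : 2 ≤ b) (l : ℕ) (r : ℝ) :
    SS b (2 * l) r ≤ ((b : ℝ) ^ (2 * l)) ^ 4 *
      Real.exp (-(2 / b ^ 4 * ∑ i ∈ range l, sg ((b ^ 2) ^ i * ((b ^ 2 - 1) * r)))) := by
  induction l with
  | zero =>
    unfold SS P
    simp
  | succ l ih =>
    have h1 := SS_two b hb (2 * l) r
    have h2 : 2 * (l + 1) = 2 * l + 2 := by ring
    rw [h2]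
    refine h1.trans ?_
    have h3 : 0 ≤ (b : ℝ) ^ 8 * Real.exp (-(2 / b ^ 4 * sg (b ^ (2 * l) * (b ^ 2 - 1) * r))) := by
      positivity
    refine (mul_le_mul_of_nonneg_left ih h3).trans ?_
    rw [Finset.sum_range_succ, mul_add, neg_add, Real.exp_add]
    apply le_of_eq
    have h4 : ((b : ℝ) ^ 2) ^ l * ((b ^ 2 - 1) * r) = b ^ (2 * l) * (b ^ 2 - 1) * r := by
      rw [← pow_mul]; ring
    rw [h4]
    ring

end Pool.Agent.X35.RP
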