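import Pool.Agent.X35.RP.Far

/-!
# The error term
-/

set_option autoImplicit false

open Finset Filter

namespace Pool.Agent.X35.RP

/-- the sum over the reduced fractions with denominator `q` -/
noncomputable def SR (c : ℝ) (B l q : ℕ) : ℝ := ∑ a ∈ Red q, G c B l ((a : ℝ) / q)

theorem SR_nonneg (c : ℝ) (B l q : ℕ) : 0 ≤ SR c B l q :=
  Finset.sum_nonneg fun _ _ => (G_pos _ _ _ _).le

theorem blocks (c : ℝ) (hc : 0 ≤ c) (B : ℕ) (hB : 4 ≤ B) (r l : ℕ) (hr0 : 0 < r)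
    (hr : ((B : ℝ) - 1) * Real.exp (-(c * r * (4 / (B : ℝ) ^ 4))) ≤ 2 / 5) (j0 n : ℕ) (h : j0 ≤ n)
    (hl : 2 * n * r ≤ l) :
    ∑ q ∈ (Ioc (B ^ j0) (B ^ n)).filter (fun q => Nat.Coprime q B), (1 / (q : ℝ)) * SR c B l q ≤
      B ^ 2 * ((1 / 2 : ℝ) ^ j0 - (1 / 2 : ℝ) ^ n) := by
  have hB4 : (4 : ℝ) ≤ B := by exact_mod_cast hB
  have hB0 : (0 : ℝ) < B := by linarith
  induction n, h using Nat.le_induction with
  | base => simp
  | succ n hn ih =>
    have ih' := ih (le_trans (Nat.mul_le_mul_right _ (by omega)) hl)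
    have h1 : ∀ f : ℕ → ℝ, ∑ q ∈ (Ioc (B ^ j0) (B ^ (n + 1))).filter (fun q => Nat.Coprime q B), f q =
        ∑ q ∈ (Ioc (B ^ j0) (B ^ n)).filter (fun q => Nat.Coprime q B), f q +
        ∑ q ∈ (Ioc (B ^ n) (B ^ (n + 1))).filter (fun q => Nat.Coprime q B), f q := by
      intro f
      rw [sum_filter, sum_filter, sum_filter]
      symm
      exact Finset.sum_Ioc_consecutive _ (Nat.pow_le_pow_right (by omega) hn)
        (Nat.pow_le_pow_right (by omega) (by omega))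
    rw [h1]
    obtain ⟨x, hx⟩ : ∃ x : ℝ, x = ((B : ℝ) - 1) * Real.exp (-(c * r * (4 / (B : ℝ) ^ 4))) := ⟨_, rfl⟩
    have hx0 : 0 ≤ x := by
      rw [hx]
      exact mul_nonneg (by linarith) (Real.exp_pos _).le
    have h2 : ∑ q ∈ (Ioc (B ^ n) (B ^ (n + 1))).filter (fun q => Nat.Coprime q B),
        (1 / (q : ℝ)) * SR c B l q ≤ 1 / (B : ℝ) ^ n * (B * (1 + x) ^ (2 * n + 1)) := by
      have h3 : ∀ q ∈ (Ioc (B ^ n) (B ^ (n + 1))).filter (fun q => Nat.Coprime q B),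
          (1 / (q : ℝ)) * SR c B l q ≤
          1 / (B : ℝ) ^ n * ∑ a ∈ Red q, G (c * r) B (2 * n + 1) ((a : ℝ) / q) := by
        intro q hq
        rw [mem_filter, mem_Ioc] at hq
        have hq0 : 0 < q := lt_of_le_of_lt (Nat.zero_le _) hq.1.1
        apply mul_le_mul _ _ (SR_nonneg _ _ _ _) (by positivity)
        · apply one_div_le_one_div_of_le (by positivity)
          exact_mod_cast hq.1.1.le
        · refine Red_amgm c B l r (2 * n + 1) q hc hr0 ?_ hq0 (Nat.Coprime.symm hq.2)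
          refine le_trans ?_ hl
          exact Nat.mul_le_mul_right _ (by omega)
      refine (Finset.sum_le_sum h3).trans ?_
      rw [← Finset.mul_sum]
      apply mul_le_mul_of_nonneg_left _ (by positivity)
      have h4 := avg (c * r) (by positivity) B (by omega) (2 * n + 1) (n + 1) (by ring)
        ((Ioc (B ^ n) (B ^ (n + 1))).filter (fun q => Nat.Coprime q B)) (by
          intro q hq
          rw [mem_filter, mem_Ioc] at hq
          exact ⟨lt_of_le_of_lt (Nat.zero_le _) hq.1.1, hq.1.2⟩)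
      rw [← hx] at h4
      exact h4
    have h5 : (1 + x) ^ (2 * n + 1) ≤ 2 ^ (n + 1) := by
      calc (1 + x) ^ (2 * n + 1) ≤ (1 + x) ^ (2 * (n + 1)) :=
            pow_le_pow_right₀ (by linarith) (by omega)
        _ = ((1 + x) ^ 2) ^ (n + 1) := by rw [pow_mul]
        _ ≤ 2 ^ (n + 1) := by
            apply pow_le_pow_left₀ (by positivity)
            rw [← hx] at hr
            nlinarith
    have h6 : 1 / (B : ℝ) ^ n * (B * (1 + x) ^ (2 * n + 1)) ≤ B ^ 2 * (1 / 2 : ℝ) ^ (n + 1) := by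
      calc 1 / (B : ℝ) ^ n * (B * (1 + x) ^ (2 * n + 1)) ≤ 1 / (B : ℝ) ^ n * (B * 2 ^ (n + 1)) := by
            apply mul_le_mul_of_nonneg_left _ (by positivity)
            exact mul_le_mul_of_nonneg_left h5 hB0.le
        _ = 4 * B * ((2 / (B : ℝ)) ^ n * (1 / 2)) := by
            rw [div_pow, pow_succ]
            field_simp
            norm_num
        _ ≤ B * B * ((1 / 2) ^ n * (1 / 2)) := by
            apply mul_le_mul
            · exact mul_le_mul_of_nonneg_right hB4 hB0.le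
            · apply mul_le_mul_of_nonneg_right _ (by norm_num)
              apply pow_le_pow_left₀ (by positivity)
              rw [div_le_div_iff₀ hB0 (by norm_num)]
              linarith
            · positivity
            · positivity
        _ = B ^ 2 * (1 / 2 : ℝ) ^ (n + 1) := by ring
    have h7 : (1 / 2 : ℝ) ^ n = 2 * (1 / 2 : ℝ) ^ (n + 1) := by rw [pow_succ]; ring
    have h8 := h2.trans h6
    have h9 : (B : ℝ) ^ 2 * ((1 / 2 : ℝ) ^ j0 - (1 / 2 : ℝ) ^ n) +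
        B ^ 2 * (1 / 2 : ℝ) ^ (n + 1) = B ^ 2 * ((1 / 2 : ℝ) ^ j0 - (1 / 2 : ℝ) ^ (n + 1)) := by
      rw [h7]; ring
    linarith

theorem small (c : ℝ) (hc : 0 ≤ c) (B : ℕ) (hB : 2 ≤ B) (l j0 : ℕ) :
    ∑ q ∈ (Ioc 1 (B ^ j0)).filter (fun q => Nat.Coprime q B), (1 / (q : ℝ)) * SR c B l q ≤
      B ^ j0 * Real.exp (-(c / B ^ 2 * (l / j0 : ℕ))) := by
  have h1 : ∀ q ∈ (Ioc 1 (B ^ j0)).filter (fun q => Nat.Coprime q B), (1 / (q : ℝ)) * SR c B l q ≤
      Real.exp (-(c / B ^ 2 * (l / j0 : ℕ))) := by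
    intro q hq
    rw [mem_filter, mem_Ioc] at hq
    have hq0 : 0 < q := by omega
    have hq0' : (0 : ℝ) < q := by exact_mod_cast hq0
    have h2 : SR c B l q ≤ q * Real.exp (-(c / B ^ 2 * (l / j0 : ℕ))) := by
      unfold SR
      have h3 : ∀ a ∈ Red q, G c B l ((a : ℝ) / q) ≤ Real.exp (-(c / B ^ 2 * (l / j0 : ℕ))) := by
        intro a ha
        unfold Red at ha
        rw [mem_filter, mem_range] at ha
        apply G_le c hc B hB q a j0 l hq0 _ hq.2 hq.1.2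
        intro h4
        have h5 : q = 1 := by
          have := Nat.eq_one_of_dvd_coprimes ha.2 h4 (dvd_refl q)
          exact this
        omega
      refine (Finset.sum_le_sum h3).trans ?_
      rw [sum_const, nsmul_eq_mul]
      apply mul_le_mul_of_nonneg_right _ (Real.exp_pos _).le
      have : (Red q).card ≤ q := by
        unfold Red
        refine (Finset.card_filter_le _ _).trans ?_
        rw [card_range]
      exact_mod_cast this
    calc (1 / (q : ℝ)) * SR c B l q ≤ (1 / (q : ℝ)) * (q * Real.exp (-(c / B ^ 2 * (l / j0 : ℕ)))) :=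
          mul_le_mul_of_nonneg_left h2 (by positivity)
      _ = _ := by field_simp
  refine (Finset.sum_le_sum h1).trans ?_
  rw [sum_const, nsmul_eq_mul]
  apply mul_le_mul_of_nonneg_right _ (Real.exp_pos _).le
  have : ((Ioc 1 (B ^ j0)).filter (fun q => Nat.Coprime q B)).card ≤ B ^ j0 := by
    refine (Finset.card_filter_le _ _).trans ?_
    rw [Nat.card_Ioc]
    omega
  exact_mod_cast this

theorem total (c : ℝ) (hc : 0 ≤ c) (B : ℕ) (hB : 4 ≤ B) (r l : ℕ) (hr0 : 0 < r)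
    (hr : ((B : ℝ) - 1) * Real.exp (-(c * r * (4 / (B : ℝ) ^ 4))) ≤ 2 / 5) (j0 J : ℕ)
    (hl : 2 * J * r ≤ l) :
    ∑ q ∈ (Ioc 1 (B ^ J)).filter (fun q => Nat.Coprime q B), (1 / (q : ℝ)) * SR c B l q ≤
      B ^ j0 * Real.exp (-(c / B ^ 2 * (l / j0 : ℕ))) + B ^ 2 * (1 / 2 : ℝ) ^ j0 := by
  have hs := small c hc B (by omega) l j0
  have hnn : ∀ q : ℕ, 0 ≤ (1 / (q : ℝ)) * SR c B l q := fun q =>
    mul_nonneg (by positivity) (SR_nonneg _ _ _ _)
  rcases le_total J j0 with h | h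
  · have h1 : ∑ q ∈ (Ioc 1 (B ^ J)).filter (fun q => Nat.Coprime q B), (1 / (q : ℝ)) * SR c B l q ≤
        ∑ q ∈ (Ioc 1 (B ^ j0)).filter (fun q => Nat.Coprime q B), (1 / (q : ℝ)) * SR c B l q := by
      apply Finset.sum_le_sum_of_subset_of_nonneg
      · apply Finset.filter_subset_filter
        apply Finset.Ioc_subset_Ioc_right
        exact Nat.pow_le_pow_right (by omega) h
      · intro q _ _
        exact hnn q
    have h2 : 0 ≤ (B : ℝ) ^ 2 * (1 / 2 : ℝ) ^ j0 := by positivity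
    linarith
  · have hb := blocks c hc B hB r l hr0 hr j0 J h hl
    have h1 : ∑ q ∈ (Ioc 1 (B ^ J)).filter (fun q => Nat.Coprime q B), (1 / (q : ℝ)) * SR c B l q =
        ∑ q ∈ (Ioc 1 (B ^ j0)).filter (fun q => Nat.Coprime q B), (1 / (q : ℝ)) * SR c B l q +
        ∑ q ∈ (Ioc (B ^ j0) (B ^ J)).filter (fun q => Nat.Coprime q B),
          (1 / (q : ℝ)) * SR c B l q := by
      rw [sum_filter, sum_filter, sum_filter]
      symm
      exact Finset.sum_Ioc_consecutive _ (Nat.one_le_pow _ _ (by omega))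
        (Nat.pow_le_pow_right (by omega) h)
    rw [h1]
    have h2 : 0 ≤ (B : ℝ) ^ 2 * (1 / 2 : ℝ) ^ J := by positivity
    linarith

/-- the choice of the parameter -/
theorem param (c : ℝ) (hc : 0 < c) (B : ℕ) (hB : 2 ≤ B) : ∃ L0 : ℕ, 1 ≤ L0 ∧ ∀ l : ℕ, L0 ≤ l →
    ∃ j0 : ℕ, (1 + l * Real.log B) *
      (B ^ j0 * Real.exp (-(c / B ^ 2 * (l / j0 : ℕ))) + B ^ 2 * (1 / 2 : ℝ) ^ j0) ≤ 1 / l := by
  have hB0 : (0 : ℝ) < B := by exact_mod_cast (by omega : 0 < B)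
  have hB1 : (1 : ℝ) ≤ B := by exact_mod_cast (by omega : 1 ≤ B)
  have hlB : 0 ≤ Real.log B := Real.log_nonneg hB1
  obtain ⟨c', hc'⟩ : ∃ c' : ℝ, c' = c / B ^ 2 := ⟨_, rfl⟩
  have hc'0 : 0 < c' := by rw [hc']; positivity
  -- the exponent
  obtain ⟨A, hA⟩ : ∃ A : ℝ, A = (1 + Real.log B) * 2 * (1 + B ^ 2) := ⟨_, rfl⟩
  have hA1 : 1 ≤ A := by
    rw [hA]
    have h1 : (1 : ℝ) ≤ 1 + Real.log B := by linarith
    have h2 : (1 : ℝ) ≤ 1 + B ^ 2 := by have := sq_nonneg (B : ℝ); linarith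
    nlinarith
  have hlog := Real.tendsto_log_atTop.comp (tendsto_natCast_atTop_atTop (R := ℝ))
  have e1 : ∀ᶠ l : ℕ in atTop, (A : ℝ) ≤ l := tendsto_natCast_atTop_atTop.eventually_ge_atTop A
  have e2 : ∀ᶠ l : ℕ in atTop, (10 : ℝ) ≤ Real.log l := hlog.eventually_ge_atTop 10
  obtain ⟨C1, hC1⟩ : ∃ C1 : ℝ, C1 = (12 * B + 6) / c' + 1 := ⟨_, rfl⟩
  have hC1pos : 1 ≤ C1 := by
    rw [hC1]
    have : 0 ≤ (12 * (B : ℝ) + 6) / c' := by positivity
    linarith
  have e3 : ∀ᶠ l : ℕ in atTop, (9 * C1) * Real.log l ^ 2 ≤ l := by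
    have h1 := (Real.isLittleO_pow_log_id_atTop (n := 2)).comp_tendsto (tendsto_natCast_atTop_atTop (R := ℝ))
    have h2 := h1.bound (show (0 : ℝ) < 1 / (9 * C1) by positivity)
    filter_upwards [h2] with l hl
    simp only [Function.comp, id] at hl
    rw [Real.norm_of_nonneg (by positivity), Real.norm_of_nonneg (by positivity)] at hl
    have h3 : (9 * C1) * Real.log l ^ 2 ≤ (9 * C1) * (1 / (9 * C1) * l) :=
      mul_le_mul_of_nonneg_left hl (by positivity)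
    have h4 : (9 * C1) * (1 / (9 * C1) * (l : ℝ)) = l := by field_simp
    linarith
  obtain ⟨L0, hL0⟩ := (e1.and (e2.and e3)).exists_forall_of_atTop
  refine ⟨max L0 2, by omega, ?_⟩
  intro l hl
  obtain ⟨g1, g2, g3⟩ := hL0 l (le_trans (le_max_left _ _) hl)
  have hl2 : 2 ≤ l := le_trans (le_max_right _ _) hl
  have hl0 : (0 : ℝ) < l := by exact_mod_cast (by omega : 0 < l)
  have hl1 : (1 : ℝ) ≤ l := by exact_mod_cast (by omega : 1 ≤ l)
  obtain ⟨s, hs⟩ : ∃ s, s = Nat.log 2 l := ⟨_, rfl⟩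
  have hs1 : 2 ^ s ≤ l := by rw [hs]; exact Nat.pow_log_le_self 2 (by omega)
  have hs2 : l < 2 ^ (s + 1) := by rw [hs]; exact Nat.lt_pow_succ_log_self (by norm_num) l
  have hs1' : (2 : ℝ) ^ s ≤ l := by exact_mod_cast hs1
  have hs2' : (l : ℝ) < 2 ^ (s + 1) := by exact_mod_cast hs2
  have hs3 : (2 : ℝ) ^ (s + 1) ≤ 2 * l := by rw [pow_succ]; linarith
  obtain ⟨Λ, hΛ⟩ : ∃ Λ : ℝ, Λ = Real.log l := ⟨_, rfl⟩
  rw [← hΛ] at g2 g3
  have hlog2 : (0.6931471803 : ℝ) < Real.log 2 := Real.log_two_gt_d9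
  have hsl : (s : ℝ) * Real.log 2 ≤ Λ := by
    have := Real.log_le_log (by positivity) hs1'
    rw [Real.log_pow] at this
    rw [hΛ]; exact this
  have hs4 : (3 : ℝ) * (s + 1) ≤ 6 * Λ := by nlinarith
  refine ⟨3 * (s + 1), ?_⟩
  rw [← hc']
  -- the floor
  have hfl : C1 * Λ ≤ ((l / (3 * (s + 1)) : ℕ) : ℝ) := by
    have h1 : (l : ℝ) / (3 * (s + 1)) < ((l / (3 * (s + 1)) : ℕ) : ℝ) + 1 := by
      have h2 := Nat.lt_mul_div_succ l (show 0 < 3 * (s + 1) by omega)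
      rw [div_lt_iff₀ (by positivity)]
      have h3 : (l : ℝ) < ((3 * (s + 1) * (l / (3 * (s + 1)) + 1) : ℕ) : ℝ) := by exact_mod_cast h2
      push_cast at h3
      linarith
    have h2 : (9 * C1 / 6) * Λ ≤ (l : ℝ) / (3 * (s + 1)) := by
      rw [le_div_iff₀ (by positivity)]
      calc (9 * C1 / 6) * Λ * (3 * (s + 1)) ≤ (9 * C1 / 6) * Λ * (6 * Λ) :=
            mul_le_mul_of_nonneg_left hs4 (by positivity)
        _ = (9 * C1) * Λ ^ 2 := by ring
        _ ≤ l := g3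
    have h3 : 1 ≤ (9 * C1 / 6 - C1) * Λ := by nlinarith
    nlinarith
  have hexp : Real.exp (-(c' * ((l / (3 * (s + 1)) : ℕ) : ℝ))) ≤ Real.exp (-((12 * B + 6) * Λ)) := by
    apply Real.exp_le_exp.2
    have h1 := mul_le_mul_of_nonneg_left hfl hc'0.le
    have h2 : (12 * B + 6) * Λ ≤ c' * (C1 * Λ) := by
      rw [hC1]
      have h3 : c' * (((12 * (B : ℝ) + 6) / c' + 1) * Λ) = (12 * B + 6) * Λ + c' * Λ := by
        field_simp
      rw [h3]
      have : 0 ≤ c' * Λ := by positivity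
      linarith
    linarith
  have hexp2 : Real.exp (-((12 * (B : ℝ) + 6) * Λ)) = ((l : ℝ) ^ (12 * B + 6))⁻¹ := by
    rw [Real.exp_neg]
    congr 1
    have h1 : (12 * (B : ℝ) + 6) * Λ = ((12 * B + 6 : ℕ) : ℝ) * Real.log l := by
      rw [hΛ]; push_cast; ring
    rw [h1, Real.exp_nat_mul, Real.exp_log hl0]
  have hBp : (B : ℝ) ^ (3 * (s + 1)) ≤ (l : ℝ) ^ (6 * B) := by
    have h1 : B ≤ 2 ^ B := Nat.lt_two_pow_self.le
    have h2 : (B : ℝ) ≤ 2 ^ B := by exact_mod_cast h1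
    have h4l : (2 : ℝ) * l ≤ l ^ 2 := by
      have : (2 : ℝ) ≤ l := by exact_mod_cast hl2
      nlinarith
    calc (B : ℝ) ^ (3 * (s + 1)) ≤ (2 ^ B) ^ (3 * (s + 1)) := pow_le_pow_left₀ hB0.le h2 _
      _ = (2 ^ (s + 1)) ^ (3 * B) := by rw [← pow_mul, ← pow_mul]; congr 1; ring
      _ ≤ (2 * l) ^ (3 * B) := pow_le_pow_left₀ (by positivity) hs3 _
      _ ≤ (l ^ 2) ^ (3 * B) := pow_le_pow_left₀ (by positivity) h4l _
      _ = l ^ (6 * B) := by rw [← pow_mul]; congr 1; ring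
  have hfirst : (B : ℝ) ^ (3 * (s + 1)) * Real.exp (-(c' * ((l / (3 * (s + 1)) : ℕ) : ℝ))) ≤
      1 / (l : ℝ) ^ 3 := by
    calc _ ≤ (l : ℝ) ^ (6 * B) * ((l : ℝ) ^ (12 * B + 6))⁻¹ := by
          apply mul_le_mul hBp (hexp.trans hexp2.le) (Real.exp_pos _).le (by positivity)
      _ ≤ (l : ℝ) ^ (6 * B) * ((l : ℝ) ^ (6 * B + 3))⁻¹ := by
          apply mul_le_mul_of_nonneg_left _ (by positivity)
          apply inv_anti₀ (by positivity)
          exact pow_le_pow_right₀ hl1 (by omega)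
      _ = 1 / (l : ℝ) ^ 3 := by
          rw [pow_add]; field_simp
  have hsecond : (B : ℝ) ^ 2 * (1 / 2 : ℝ) ^ (3 * (s + 1)) ≤ B ^ 2 * (1 / (l : ℝ) ^ 3) := by
    apply mul_le_mul_of_nonneg_left _ (by positivity)
    rw [one_div_pow]
    apply one_div_le_one_div_of_le (by positivity)
    calc (l : ℝ) ^ 3 ≤ (2 ^ (s + 1)) ^ 3 := pow_le_pow_left₀ hl0.le hs2'.le _
      _ = 2 ^ (3 * (s + 1)) := by rw [← pow_mul]; congr 1; ring
  have hthird : 1 + l * Real.log B ≤ l * (1 + Real.log B) := by linarith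
  calc (1 + l * Real.log B) * (B ^ (3 * (s + 1)) * Real.exp (-(c' * ((l / (3 * (s + 1)) : ℕ) : ℝ))) +
        B ^ 2 * (1 / 2 : ℝ) ^ (3 * (s + 1)))
      ≤ (l * (1 + Real.log B)) * (1 / (l : ℝ) ^ 3 + B ^ 2 * (1 / (l : ℝ) ^ 3)) := by
        apply mul_le_mul hthird (add_le_add hfirst hsecond) (by positivity) (by positivity)
    _ = ((1 + Real.log B) * (1 + B ^ 2)) / l * (1 / l) := by field_simp
    _ ≤ 1 * (1 / l) := by
        apply mul_le_mul_of_nonneg_right _ (by positivity)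
        rw [div_le_one hl0]
        have h1 : (1 + Real.log B) * (1 + (B : ℝ) ^ 2) ≤ A := by
          rw [hA]
          have : 0 ≤ (1 + Real.log B) * (1 + (B : ℝ) ^ 2) := by positivity
          linarith
        linarith
    _ = 1 / l := one_mul _

/-- fractions by their denominators -/
theorem sum_frac (d : ℕ) (hd : 0 < d) (F : ℝ → ℝ) :
    ∑ a ∈ range d, F ((a : ℝ) / d) = ∑ q ∈ d.divisors, ∑ a ∈ Red q, F ((a : ℝ) / q) := by
  rw [Finset.sum_sigma']
  symm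
  apply Finset.sum_nbij' (i := fun x : (_ : ℕ) × ℕ => x.2 * (d / x.1))
    (j := fun a => (⟨d / Nat.gcd a d, a / Nat.gcd a d⟩ : (_ : ℕ) × ℕ))
  · rintro ⟨q, a⟩ hx
    rw [mem_sigma] at hx
    obtain ⟨h1, h2⟩ := hx
    simp only at h1 h2 ⊢
    unfold Red at h2
    rw [mem_filter, mem_range] at h2
    rw [mem_range]
    have hq := Nat.dvd_of_mem_divisors h1
    have hdq : 0 < d / q := Nat.div_pos (Nat.le_of_dvd hd hq) (Nat.pos_of_dvd_of_pos hq hd)
    calc a * (d / q) < q * (d / q) := Nat.mul_lt_mul_of_pos_right h2.1 hdq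
      _ = d := Nat.mul_div_cancel' hq
  · intro a ha
    rw [mem_range] at ha
    rw [mem_sigma]
    have hg : 0 < Nat.gcd a d := Nat.gcd_pos_of_pos_right _ hd
    refine ⟨Nat.mem_divisors.2 ⟨Nat.div_dvd_of_dvd (Nat.gcd_dvd_right a d), hd.ne'⟩, ?_⟩
    simp only
    unfold Red
    rw [mem_filter, mem_range]
    exact ⟨Nat.div_lt_div_of_lt_of_dvd (Nat.gcd_dvd_right a d) ha, Nat.coprime_div_gcd_div_gcd hg⟩
  · rintro ⟨q, a⟩ hx
    rw [mem_sigma] at hx
    obtain ⟨h1, h2⟩ := hx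
    simp only at h1 h2 ⊢
    unfold Red at h2
    rw [mem_filter, mem_range] at h2
    have hq := Nat.dvd_of_mem_divisors h1
    obtain ⟨t, rfl⟩ := hq
    have hq0 : 0 < q := by
      rcases Nat.eq_zero_or_pos q with h | h
      · subst h; omega
      · exact h
    have ht0 : 0 < t := by
      rcases Nat.eq_zero_or_pos t with h | h
      · subst h; omega
      · exact h
    rw [Nat.mul_div_cancel_left _ hq0]
    have h3 : Nat.gcd (a * t) (q * t) = t := by
      rw [Nat.gcd_mul_right, Nat.Coprime.gcd_eq_one h2.2, one_mul]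
    rw [h3, Nat.mul_div_cancel _ ht0, Nat.mul_div_cancel _ ht0]
  · intro a ha
    simp only
    have hg : 0 < Nat.gcd a d := Nat.gcd_pos_of_pos_right _ hd
    have h1 : d / (d / Nat.gcd a d) = Nat.gcd a d :=
      Nat.div_div_self (Nat.gcd_dvd_right a d) hd.ne'
    rw [h1]
    exact Nat.div_mul_cancel (Nat.gcd_dvd_left a d)
  · rintro ⟨q, a⟩ hx
    rw [mem_sigma] at hx
    obtain ⟨h1, h2⟩ := hx
    simp only at h1 h2 ⊢
    have hq := Nat.dvd_of_mem_divisors h1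
    obtain ⟨t, rfl⟩ := hq
    have hq0 : 0 < q := by
      rcases Nat.eq_zero_or_pos q with h | h
      · subst h; omega
      · exact h
    have ht0 : 0 < t := by
      rcases Nat.eq_zero_or_pos t with h | h
      · subst h; omega
      · exact h
    rw [Nat.mul_div_cancel_left _ hq0]
    congr 1
    have hq1 : (q : ℝ) ≠ 0 := by exact_mod_cast hq0.ne'
    have ht1 : (t : ℝ) ≠ 0 := by exact_mod_cast ht0.ne'
    push_cast
    field_simp

theorem sum_frac' (d : ℕ) (hd : 0 < d) (F : ℝ → ℝ) :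
    ∑ a ∈ Ico 1 d, F ((a : ℝ) / d) = ∑ q ∈ d.divisors.erase 1, ∑ a ∈ Red q, F ((a : ℝ) / q) := by
  have h1 := sum_frac d hd F
  have h2 : ∑ a ∈ range d, F ((a : ℝ) / d) = F 0 + ∑ a ∈ Ico 1 d, F ((a : ℝ) / d) := by
    rw [Finset.range_eq_Ico, Finset.sum_eq_sum_Ico_succ_bot hd]
    simp
  have h3 : ∑ q ∈ d.divisors, ∑ a ∈ Red q, F ((a : ℝ) / q) =
      F 0 + ∑ q ∈ d.divisors.erase 1, ∑ a ∈ Red q, F ((a : ℝ) / q) := by
    rw [← Finset.add_sum_erase _ _ (Nat.one_mem_divisors.2 hd.ne')]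
    congr 1
    have : Red 1 = {0} := by
      unfold Red
      rfl
    rw [this, Finset.sum_singleton]
    simp
  linarith

theorem harm (D : ℕ) : ∑ m ∈ Icc 1 D, (1 : ℝ) / m ≤ 1 + Real.log D := by
  have h1 := harmonic_le_one_add_log D
  have h2 : ((harmonic D : ℚ) : ℝ) = ∑ m ∈ Icc 1 D, (1 : ℝ) / m := by
    rw [harmonic_eq_sum_Icc]
    push_cast
    simp
  linarith

theorem harm_dvd (D q : ℕ) (hq : 0 < q) :
    ∑ d ∈ (Icc 1 D).filter (fun d => q ∣ d), (1 : ℝ) / d ≤ 1 / q * (1 + Real.log D) := by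
  have h1 : (Icc 1 D).filter (fun d => q ∣ d) ⊆ (Icc 1 D).image (fun m => q * m) := by
    intro d hd
    rw [mem_filter, mem_Icc] at hd
    obtain ⟨⟨h1, h2⟩, m, rfl⟩ := hd
    rw [mem_image]
    refine ⟨m, ?_, rfl⟩
    rw [mem_Icc]
    constructor
    · rcases Nat.eq_zero_or_pos m with h | h
      · subst h; omega
      · exact h
    · exact le_trans (Nat.le_mul_of_pos_left m hq) h2
  refine (Finset.sum_le_sum_of_subset_of_nonneg h1 (fun _ _ _ => by positivity)).trans ?_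
  rw [Finset.sum_image (fun x _ y _ h => Nat.eq_of_mul_eq_mul_left hq h)]
  have h2 : ∀ m ∈ Icc 1 D, (1 : ℝ) / ((q * m : ℕ) : ℝ) = 1 / q * (1 / m) := by
    intro m _
    push_cast
    rw [one_div_mul_one_div]
  rw [Finset.sum_congr rfl h2, ← Finset.mul_sum]
  exact mul_le_mul_of_nonneg_left (harm D) (by positivity)

/-- the sum over the moduli of the sieve -/
theorem moduli (c : ℝ) (B l D : ℕ) (hB : 2 ≤ B) (hD : 1 ≤ D) (DD : Finset ℕ)
    (hDD : ∀ d ∈ DD, 1 ≤ d ∧ d ≤ D ∧ Nat.Coprime d B ∧ Nat.Coprime d (B - 1)) :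
    ∑ d ∈ DD, (1 / (d : ℝ)) * ∑ a ∈ Ico 1 d, G c B l ((B - 1) * ((a : ℝ) / d)) ≤
      (1 + Real.log D) *
        ∑ q ∈ (Ioc 1 D).filter (fun q => Nat.Coprime q B), (1 / (q : ℝ)) * SR c B l q := by
  have h1 : ∀ d ∈ DD, (1 / (d : ℝ)) * ∑ a ∈ Ico 1 d, G c B l ((B - 1) * ((a : ℝ) / d)) =
      ∑ q ∈ (Ioc 1 D).filter (fun q => Nat.Coprime q B),
        if q ∣ d then (1 / (d : ℝ)) * SR c B l q else 0 := by
    intro d hd
    obtain ⟨hd1, hd2, hd3, hd4⟩ := hDD d hd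
    rw [sum_frac' d hd1 (fun x => G c B l ((B - 1) * x)), Finset.mul_sum, ← Finset.sum_filter]
    have h2 : d.divisors.erase 1 =
        ((Ioc 1 D).filter (fun q => Nat.Coprime q B)).filter (fun q => q ∣ d) := by
      ext q
      rw [mem_erase, Nat.mem_divisors, mem_filter, mem_filter, mem_Ioc]
      constructor
      · rintro ⟨h3, h4, _⟩
        have h5 := Nat.le_of_dvd hd1 h4
        have h6 : 0 < q := Nat.pos_of_dvd_of_pos h4 hd1
        exact ⟨⟨⟨by omega, by omega⟩, Nat.Coprime.coprime_dvd_left h4 hd3⟩, h4⟩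
      · rintro ⟨⟨⟨h3, _⟩, _⟩, h4⟩
        exact ⟨by omega, h4, by omega⟩
    rw [h2]
    apply Finset.sum_congr rfl
    intro q hq
    rw [mem_filter, mem_filter, mem_Ioc] at hq
    congr 1
    have h3 : Nat.Coprime (B - 1) q :=
      Nat.Coprime.symm (Nat.Coprime.coprime_dvd_left hq.2 hd4)
    have h4 := Red_perm q (B - 1) (by omega) h3 (G c B l) (G_add_int _ _ _)
    have h5 : ((B - 1 : ℕ) : ℝ) = B - 1 := by
      rw [Nat.cast_sub (by omega)]; norm_num
    rw [h5] at h4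
    exact h4
  rw [Finset.sum_congr rfl h1, Finset.sum_comm, Finset.mul_sum]
  apply Finset.sum_le_sum
  intro q hq
  rw [mem_filter, mem_Ioc] at hq
  have hq0 : 0 < q := by omega
  rw [← Finset.sum_filter]
  have h2 : ∑ d ∈ DD.filter (fun d => q ∣ d), (1 / (d : ℝ)) * SR c B l q =
      (∑ d ∈ DD.filter (fun d => q ∣ d), (1 / (d : ℝ))) * SR c B l q := by
    rw [Finset.sum_mul]
  rw [h2]
  have h3 : ∑ d ∈ DD.filter (fun d => q ∣ d), (1 / (d : ℝ)) ≤ 1 / q * (1 + Real.log D) := by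
    refine le_trans ?_ (harm_dvd D q hq0)
    apply Finset.sum_le_sum_of_subset_of_nonneg
    · apply Finset.filter_subset_filter
      intro d hd
      obtain ⟨hd1, hd2, _⟩ := hDD d hd
      rw [mem_Icc]
      exact ⟨hd1, hd2⟩
    · intro d _ _
      positivity
  calc _ ≤ (1 / q * (1 + Real.log D)) * SR c B l q :=
        mul_le_mul_of_nonneg_right h3 (SR_nonneg _ _ _ _)
    _ = _ := by ring

/-- the error is small -/
theorem error (c : ℝ) (hc : 0 < c) (B : ℕ) (hB : 4 ≤ B) : ∃ r L0 : ℕ, 1 ≤ r ∧ 1 ≤ L0 ∧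
    ∀ l J : ℕ, L0 ≤ l → 2 * J * r ≤ l → ∀ DD : Finset ℕ,
    (∀ d ∈ DD, 1 ≤ d ∧ d ≤ B ^ J ∧ Nat.Coprime d B ∧ Nat.Coprime d (B - 1)) →
    ∑ d ∈ DD, (1 / (d : ℝ)) * ∑ a ∈ Ico 1 d, G c B l ((B - 1) * ((a : ℝ) / d)) ≤ 1 / l := by
  have hB4 : (4 : ℝ) ≤ B := by exact_mod_cast hB
  have hB0 : (0 : ℝ) < B := by linarith
  obtain ⟨L0, hL01, hL0⟩ := param c hc B (by omega)
  have h1 : Tendsto (fun r : ℕ => ((B : ℝ) - 1) * Real.exp (-(c * r * (4 / (B : ℝ) ^ 4)))) atTop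
      (nhds (((B : ℝ) - 1) * 0)) := by
    apply Tendsto.const_mul
    apply Real.tendsto_exp_neg_atTop_nhds_zero.comp
    have h2 : (fun r : ℕ => c * (r : ℝ) * (4 / (B : ℝ) ^ 4)) =
        fun r : ℕ => (c * (4 / (B : ℝ) ^ 4)) * (r : ℝ) := by
      ext r; ring
    rw [h2]
    exact Tendsto.const_mul_atTop (by positivity) tendsto_natCast_atTop_atTop
  rw [mul_zero] at h1
  obtain ⟨r, hr⟩ := ((h1.eventually (Iic_mem_nhds (show (0:ℝ) < 2 / 5 by norm_num))).and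
    (eventually_ge_atTop 1)).exists
  refine ⟨r, L0, hr.2, hL01, ?_⟩
  intro l J hl hJ DD hDD
  obtain ⟨j0, hj0⟩ := hL0 l hl
  have h3 := moduli c B l (B ^ J) (by omega) (Nat.one_le_pow _ _ (by omega)) DD hDD
  refine h3.trans (le_trans ?_ hj0)
  have h4 := total c hc.le B hB r l (by omega) hr.1 j0 J hJ
  have h5 : 1 + Real.log ((B ^ J : ℕ) : ℝ) ≤ 1 + l * Real.log B := by
    push_cast
    rw [Real.log_pow]
    have h6 : (J : ℝ) ≤ l := by
      have : J ≤ 2 * J * r := by nlinarith [hr.2]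
      exact_mod_cast this.trans hJ
    have h7 : 0 ≤ Real.log B := Real.log_nonneg (by linarith)
    have := mul_le_mul_of_nonneg_right h6 h7
    linarith
  have h6 : 0 ≤ 1 + Real.log ((B ^ J : ℕ) : ℝ) := by
    have : 0 ≤ Real.log ((B ^ J : ℕ) : ℝ) := Real.log_natCast_nonneg _
    linarith
  apply mul_le_mul h5 h4 _ (by linarith)
  apply Finset.sum_nonneg
  intro q _
  exact mul_nonneg (by positivity) (SR_nonneg _ _ _ _)

end Pool.Agent.X35.RP
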