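import Pool.Agent.X35.RP.Dig

/-!
# Products of the local factors over reduced fractions
-/

set_option autoImplicit false

open Finset

namespace Pool.Agent.X35.RP

theorem sg_ge (z : ℝ) (m : ℤ) (δ : ℝ) (h0 : 0 ≤ δ) (h1 : m + δ ≤ z) (h2 : z ≤ m + 1 - δ) :
    4 * δ ^ 2 ≤ sg z := by
  obtain ⟨y, hy⟩ : ∃ y : ℝ, y = z - m := ⟨_, rfl⟩
  have hz : z = y + m := by rw [hy]; ring
  have hpi := Real.pi_pos
  rw [hz, sg_add_int]
  unfold sg
  have h3 : 2 * δ ≤ Real.sin (Real.pi * y) := by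
    rcases le_total y (1 / 2) with h | h
    · have h4 : 2 / Real.pi * (Real.pi * y) ≤ Real.sin (Real.pi * y) := by
        apply Real.mul_le_sin
        · have : 0 ≤ y := by linarith
          positivity
        · nlinarith
      have h5 : 2 / Real.pi * (Real.pi * y) = 2 * y := by field_simp
      linarith
    · have h4 : 2 / Real.pi * (Real.pi * (1 - y)) ≤ Real.sin (Real.pi * (1 - y)) := by
        apply Real.mul_le_sin
        · have : 0 ≤ 1 - y := by linarith
          positivity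
        · nlinarith
      have h5 : 2 / Real.pi * (Real.pi * (1 - y)) = 2 * (1 - y) := by field_simp
      have h6 : Real.sin (Real.pi * (1 - y)) = Real.sin (Real.pi * y) := by
        have : Real.pi * (1 - y) = Real.pi - Real.pi * y := by ring
        rw [this, Real.sin_pi_sub]
      linarith
  have h4 : (2 * δ) ^ 2 ≤ Real.sin (Real.pi * y) ^ 2 := pow_le_pow_left₀ (by linarith) h3 2
  linarith

/-- the product of the local factors -/
noncomputable def G (c : ℝ) (B l : ℕ) (y : ℝ) : ℝ :=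
  Real.exp (-(c * ∑ i ∈ range l, sg (B ^ i * y)))

theorem G_pos (c : ℝ) (B l : ℕ) (y : ℝ) : 0 < G c B l y := Real.exp_pos _

theorem G_add_int (c : ℝ) (B l : ℕ) (y : ℝ) (n : ℤ) : G c B l (y + n) = G c B l y := by
  unfold G
  congr 3
  apply Finset.sum_congr rfl
  intro i _
  have : (B : ℝ) ^ i * (y + n) = B ^ i * y + ((B ^ i * n : ℤ) : ℝ) := by push_cast; ring
  rw [this, sg_add_int]

theorem exists_large (B : ℕ) (hB : 2 ≤ B) (q a w : ℕ) (hq0 : 0 < q) (hq : ¬ q ∣ a)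
    (hw : q ≤ B ^ w) : ∃ i < w, 1 / (B : ℝ) ^ 2 ≤ sg (B ^ i * ((a : ℝ) / q)) := by
  by_contra hcon
  push Not at hcon
  have hB0 : (0 : ℝ) < B := by exact_mod_cast (by omega : 0 < B)
  have hq0' : (0 : ℝ) < q := by exact_mod_cast hq0
  obtain ⟨m, hm⟩ : ∃ m : ℤ, m = round ((a : ℝ) / q) := ⟨_, rfl⟩
  obtain ⟨t, ht⟩ : ∃ t : ℝ, t = (a : ℝ) / q - m := ⟨_, rfl⟩
  have ht1 : |t| ≤ 1 / 2 := by rw [ht, hm]; exact abs_sub_round _
  have ht2 : 1 / (q : ℝ) ≤ |t| := by
    have h1 : t = ((a - m * q : ℤ) : ℝ) / q := by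
      rw [ht]; push_cast; field_simp
    rw [h1, abs_div, abs_of_pos hq0']
    apply div_le_div_of_nonneg_right _ hq0'.le
    have h2 : (a - m * q : ℤ) ≠ 0 := by
      intro h3
      apply hq
      have h4 : (q : ℤ) ∣ a := ⟨m, by linarith⟩
      exact_mod_cast h4
    have h3 := Int.one_le_abs h2
    rw [← Int.cast_abs]
    exact_mod_cast h3
  have hpos : ∀ i ≤ w, (B : ℝ) ^ i * |t| ≤ 1 / 2 := by
    intro i
    induction i with
    | zero => intro _; simpa using ht1
    | succ i ih =>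
      intro hi
      have h1 := ih (by omega)
      have h2 := hcon i (by omega)
      have h3 : (B : ℝ) ^ i * |t| < 1 / (2 * B) := by
        by_contra h4
        push Not at h4
        have h5 : sg ((B : ℝ) ^ i * ((a : ℝ) / q)) = sg (B ^ i * |t|) := by
          have h6 : (B : ℝ) ^ i * ((a : ℝ) / q) = B ^ i * t + ((B ^ i * m : ℤ) : ℝ) := by
            rw [ht]; push_cast; ring
          rw [h6, sg_add_int]
          rcases abs_choice t with h7 | h7
          · rw [h7]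
          · rw [h7, mul_neg, sg_neg]
        rw [h5] at h2
        have h6 := sg_ge ((B : ℝ) ^ i * |t|) 0 (1 / (2 * B)) (by positivity)
          (by push_cast; linarith) (by
            have : 1 / (2 * (B : ℝ)) ≤ 1 / 2 := by
              apply one_div_le_one_div_of_le (by norm_num)
              have : (1 : ℝ) ≤ B := by exact_mod_cast (by omega : 1 ≤ B)
              linarith
            push_cast
            linarith)
        have h7 : 4 * (1 / (2 * (B : ℝ))) ^ 2 = 1 / (B : ℝ) ^ 2 := by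
          field_simp
          norm_num
        linarith
      rw [pow_succ]
      have h4 : (B : ℝ) ^ i * B * |t| = (B ^ i * |t|) * B := by ring
      rw [h4]
      have h5 : (B : ℝ) ^ i * |t| * B ≤ 1 / (2 * B) * B := mul_le_mul_of_nonneg_right h3.le hB0.le
      have h6 : 1 / (2 * (B : ℝ)) * B = 1 / 2 := by field_simp
      linarith
  have h1 := hpos w le_rfl
  have h2 : (q : ℝ) ≤ B ^ w := by exact_mod_cast hw
  have h3 : 1 ≤ (B : ℝ) ^ w * |t| := by
    calc (1 : ℝ) = q * (1 / q) := by field_simp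
      _ ≤ B ^ w * |t| := mul_le_mul h2 ht2 (by positivity) (by positivity)
  linarith

theorem sum_large (B : ℕ) (hB : 2 ≤ B) (q a w : ℕ) (hq0 : 0 < q) (hq : ¬ q ∣ a)
    (hcop : Nat.Coprime q B) (hw : q ≤ B ^ w) (m : ℕ) :
    m * (1 / (B : ℝ) ^ 2) ≤ ∑ i ∈ range (w * m), sg (B ^ i * ((a : ℝ) / q)) := by
  induction m with
  | zero => simp
  | succ m ih =>
    rw [mul_add, mul_one, Finset.sum_range_add]
    obtain ⟨i, hi, hi2⟩ := exists_large B hB q (B ^ (w * m) * a) w hq0 (by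
      intro h
      exact hq ((Nat.Coprime.pow_right _ hcop).dvd_of_dvd_mul_left h)) hw
    have h1 : sg (B ^ i * (((B ^ (w * m) * a : ℕ) : ℝ) / q)) ≤
        ∑ x ∈ range w, sg (B ^ (w * m + x) * ((a : ℝ) / q)) := by
      have h2 : sg (B ^ i * (((B ^ (w * m) * a : ℕ) : ℝ) / q)) =
          sg (B ^ (w * m + i) * ((a : ℝ) / q)) := by
        congr 1
        push_cast
        rw [pow_add]
        ring
      rw [h2]
      exact Finset.single_le_sum (f := fun x => sg (B ^ (w * m + x) * ((a : ℝ) / q)))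
        (fun x _ => sg_nonneg _) (mem_range.2 hi)
    push_cast
    linarith

/-- the pointwise bound -/
theorem G_le (c : ℝ) (hc : 0 ≤ c) (B : ℕ) (hB : 2 ≤ B) (q a w l : ℕ) (hq0 : 0 < q) (hq : ¬ q ∣ a)
    (hcop : Nat.Coprime q B) (hw : q ≤ B ^ w) :
    G c B l ((a : ℝ) / q) ≤ Real.exp (-(c / B ^ 2 * (l / w : ℕ))) := by
  unfold G
  apply Real.exp_le_exp.2
  have h1 := sum_large B hB q a w hq0 hq hcop hw (l / w)
  have h2 : ∑ i ∈ range (w * (l / w)), sg (B ^ i * ((a : ℝ) / q)) ≤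
      ∑ i ∈ range l, sg (B ^ i * ((a : ℝ) / q)) := by
    apply Finset.sum_le_sum_of_subset_of_nonneg
    · intro x hx
      rw [mem_range] at hx ⊢
      exact lt_of_lt_of_le hx (Nat.mul_div_le l w)
    · intro i _ _
      exact sg_nonneg _
  have h3 := mul_le_mul_of_nonneg_left (h1.trans h2) hc
  have h4 : c * ((l / w : ℕ) * (1 / (B : ℝ) ^ 2)) = c / B ^ 2 * (l / w : ℕ) := by ring
  linarith

/-- reduced residues -/
def Red (q : ℕ) : Finset ℕ := (range q).filter (fun a => Nat.Coprime a q)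

theorem Red_perm (q k : ℕ) (hq : 0 < q) (hk : Nat.Coprime k q) (F : ℝ → ℝ)
    (hF : ∀ (x : ℝ) (n : ℤ), F (x + n) = F x) :
    ∑ a ∈ Red q, F (k * ((a : ℝ) / q)) = ∑ a ∈ Red q, F ((a : ℝ) / q) := by
  have hmaps : ∀ a ∈ Red q, k * a % q ∈ Red q := by
    intro a ha
    unfold Red at ha ⊢
    rw [mem_filter, mem_range] at ha ⊢
    refine ⟨Nat.mod_lt _ hq, ?_⟩
    have h1 : Nat.Coprime (k * a) q := Nat.Coprime.mul_left hk ha.2
    unfold Nat.Coprime at h1 ⊢
    rw [← Nat.gcd_rec, Nat.gcd_comm]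
    exact h1
  have hinj : Set.InjOn (fun a => k * a % q) (Red q : Set ℕ) := by
    intro a ha a' ha' h
    rw [Finset.mem_coe] at ha ha'
    unfold Red at ha ha'
    rw [mem_filter, mem_range] at ha ha'
    simp only at h
    have h1 : k * a ≡ k * a' [MOD q] := h
    have h2 : a ≡ a' [MOD q] := Nat.ModEq.cancel_left_of_coprime (by rw [Nat.gcd_comm]; exact hk) h1
    have h3 : a % q = a' % q := h2
    rw [Nat.mod_eq_of_lt ha.1, Nat.mod_eq_of_lt ha'.1] at h3
    exact h3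
  have himg : (Red q).image (fun a => k * a % q) = Red q := by
    apply Finset.eq_of_subset_of_card_le
    · intro x hx
      obtain ⟨a, ha, rfl⟩ := Finset.mem_image.1 hx
      exact hmaps a ha
    · rw [Finset.card_image_of_injOn hinj]
  conv_rhs => rw [← himg]
  rw [Finset.sum_image (fun a ha a' ha' h => hinj ha ha' h)]
  apply Finset.sum_congr rfl
  intro a _
  have hq0 : (q : ℝ) ≠ 0 := by exact_mod_cast hq.ne'
  have h1 : (k : ℝ) * ((a : ℝ) / q) = ((k * a % q : ℕ) : ℝ) / q + (((k * a / q : ℕ) : ℤ) : ℝ) := by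
    have h2 := Nat.mod_add_div (k * a) q
    have h3 : ((k * a : ℕ) : ℝ) = ((k * a % q : ℕ) : ℝ) + q * ((k * a / q : ℕ) : ℝ) := by
      rw [← Nat.cast_mul q, ← Nat.cast_add, h2]
    rw [Int.cast_natCast, mul_div_assoc', div_add' _ _ _ hq0]
    congr 1
    rw [← Nat.cast_mul, h3]
    ring
  rw [h1, hF]

/-- the arithmetic and geometric means -/
theorem G_amgm (c : ℝ) (B l r K : ℕ) (hc : 0 ≤ c) (hr : 0 < r) (hl : K * r ≤ l) (y : ℝ) :
    G c B l y ≤ (1 / (r : ℝ)) * ∑ m ∈ range r, G (c * r) B K (B ^ (K * m) * y) := by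
  have hr0 : (r : ℝ) ≠ 0 := by exact_mod_cast hr.ne'
  have h1 : ∑ m ∈ range r, ∑ i ∈ range K, sg (B ^ i * (B ^ (K * m) * y)) ≤
      ∑ i ∈ range l, sg (B ^ i * y) := by
    have h2 : ∀ n : ℕ, ∑ m ∈ range n, ∑ i ∈ range K, sg (B ^ i * (B ^ (K * m) * y)) =
        ∑ i ∈ range (K * n), sg (B ^ i * y) := by
      intro n
      induction n with
      | zero => simp
      | succ n ih =>
        rw [Finset.sum_range_succ, ih, mul_add, mul_one, Finset.sum_range_add]
        congr 1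
        apply Finset.sum_congr rfl
        intro i _
        congr 1
        rw [pow_add]
        ring
    rw [h2]
    apply Finset.sum_le_sum_of_subset_of_nonneg
    · intro x hx
      rw [mem_range] at hx ⊢
      omega
    · intro i _ _
      exact sg_nonneg _
  have h3 := convexOn_exp.map_sum_le (t := range r) (w := fun _ => 1 / (r : ℝ))
    (p := fun m => -(c * r * ∑ i ∈ range K, sg (B ^ i * (B ^ (K * m) * y))))
    (fun _ _ => by positivity) (by simp [hr0]) (fun _ _ => Set.mem_univ _)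
  simp only [smul_eq_mul] at h3
  rw [← Finset.mul_sum, ← Finset.mul_sum] at h3
  refine le_trans ?_ h3
  unfold G
  apply Real.exp_le_exp.2
  rw [Finset.sum_neg_distrib, ← Finset.mul_sum]
  have h4 : 1 / (r : ℝ) * -(c * r * ∑ m ∈ range r, ∑ i ∈ range K, sg (B ^ i * (B ^ (K * m) * y))) =
      -(c * ∑ m ∈ range r, ∑ i ∈ range K, sg (B ^ i * (B ^ (K * m) * y))) := by
    generalize (∑ m ∈ range r, ∑ i ∈ range K, sg ((B : ℝ) ^ i * ((B : ℝ) ^ (K * m) * y))) = S
    field_simp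
  rw [h4]
  have h5 := mul_le_mul_of_nonneg_left h1 hc
  linarith

theorem Red_amgm (c : ℝ) (B l r K q : ℕ) (hc : 0 ≤ c) (hr : 0 < r) (hl : K * r ≤ l) (hq : 0 < q)
    (hcop : Nat.Coprime B q) :
    ∑ a ∈ Red q, G c B l ((a : ℝ) / q) ≤ ∑ a ∈ Red q, G (c * r) B K ((a : ℝ) / q) := by
  have hr0 : (r : ℝ) ≠ 0 := by exact_mod_cast hr.ne'
  refine (Finset.sum_le_sum fun (a : ℕ) _ => G_amgm c B l r K hc hr hl ((a : ℝ) / q)).trans ?_
  rw [← Finset.mul_sum, Finset.sum_comm]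
  have h1 : ∀ m ∈ range r, ∑ a ∈ Red q, G (c * r) B K (B ^ (K * m) * ((a : ℝ) / q)) =
      ∑ a ∈ Red q, G (c * r) B K ((a : ℝ) / q) := by
    intro m _
    have h2 := Red_perm q (B ^ (K * m)) hq (Nat.Coprime.pow_left _ hcop) (G (c * r) B K)
      (G_add_int _ _ _)
    push_cast at h2
    exact h2
  rw [Finset.sum_congr rfl h1]
  simp only [sum_const, card_range, nsmul_eq_mul]
  apply le_of_eq
  field_simp

/-- weights of the pairs of digits -/
noncomputable def wt (η : ℝ) (B v : ℕ) : ℝ := if v = 0 ∨ v = B ^ 2 - 1 then 1 else η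

theorem wt_nonneg (η : ℝ) (hη : 0 ≤ η) (B v : ℕ) : 0 ≤ wt η B v := by
  unfold wt
  split_ifs
  · exact zero_le_one
  · exact hη

/-- the product of the weights over `K` pairs of digits -/
noncomputable def WW (η : ℝ) (B K u : ℕ) : ℝ := ∏ s ∈ range K, wt η B (u / B ^ s % B ^ 2)

theorem WW_nonneg (η : ℝ) (hη : 0 ≤ η) (B K u : ℕ) : 0 ≤ WW η B K u :=
  Finset.prod_nonneg fun _ _ => wt_nonneg η hη B _

theorem sum_wt (η : ℝ) (h0 : 0 ≤ η) (h1 : η ≤ 1) (B : ℕ) (hB : 2 ≤ B) (u : ℕ) :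
    ∑ d ∈ range B, wt η B ((d + B * u) % B ^ 2) ≤ 1 + (B - 1) * η := by
  have hval : ∀ d ∈ range B, (d + B * u) % B ^ 2 = d + B * (u % B) := by
    intro d hd
    rw [mem_range] at hd
    rw [sq, Nat.mod_mul, Nat.add_mul_mod_self_left, Nat.mod_eq_of_lt hd,
      Nat.add_mul_div_left _ _ (by omega), Nat.div_eq_of_lt hd, zero_add]
  have hx : u % B < B := Nat.mod_lt _ (by omega)
  have h2 : ∀ d ∈ range B, wt η B ((d + B * u) % B ^ 2) =
      η + (1 - η) * (if d + B * (u % B) = 0 ∨ d + B * (u % B) = B ^ 2 - 1 then 1 else 0) := by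
    intro d hd
    rw [hval d hd]
    unfold wt
    split_ifs <;> ring
  rw [Finset.sum_congr rfl h2, Finset.sum_add_distrib, ← Finset.mul_sum, ← Finset.sum_filter]
  simp only [sum_const, card_range, nsmul_eq_mul, mul_one]
  have h3 : ((range B).filter (fun d => d + B * (u % B) = 0 ∨ d + B * (u % B) = B ^ 2 - 1)).card ≤
      1 := by
    rw [Finset.card_le_one]
    intro d hd d' hd'
    rw [mem_filter, mem_range] at hd hd'
    have hB2 : B ^ 2 - 1 = (B - 1) + B * (B - 1) := by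
      obtain ⟨c, rfl⟩ : ∃ c, B = c + 1 := ⟨B - 1, by omega⟩
      simp only [Nat.add_sub_cancel]
      have : (c + 1) ^ 2 = (c + (c + 1) * c) + 1 := by ring
      omega
    rw [hB2] at hd hd'
    obtain ⟨hd1, hd2⟩ := hd
    obtain ⟨hd1', hd2'⟩ := hd'
    have key : ∀ e < B, e + B * (u % B) = (B - 1) + B * (B - 1) → u % B = B - 1 ∧ e = B - 1 := by
      intro e he h
      have h4 : u % B = B - 1 := by
        have e1 : (e + B * (u % B)) / B = u % B := by
          rw [Nat.add_mul_div_left _ _ (by omega), Nat.div_eq_of_lt he, zero_add]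
        have e2 : ((B - 1) + B * (B - 1)) / B = B - 1 := by
          rw [Nat.add_mul_div_left _ _ (by omega), Nat.div_eq_of_lt (by omega), zero_add]
        rw [← e1, h, e2]
      rw [h4] at h
      exact ⟨h4, by omega⟩
    have key0 : ∀ e, e + B * (u % B) = 0 → u % B = 0 ∧ e = 0 := by
      intro e h
      have h4 : B * (u % B) = 0 := by omega
      rcases Nat.mul_eq_zero.1 h4 with h5 | h5
      · omega
      · exact ⟨h5, by omega⟩
    rcases hd2 with h | h <;> rcases hd2' with h' | h'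
    · rw [(key0 d h).2, (key0 d' h').2]
    · have := (key0 d h).1; have := (key d' hd1' h').1; omega
    · have := (key0 d' h').1; have := (key d hd1 h).1; omega
    · rw [(key d hd1 h).2, (key d' hd1' h').2]
  have h4 : (((range B).filter
      (fun d => d + B * (u % B) = 0 ∨ d + B * (u % B) = B ^ 2 - 1)).card : ℝ) ≤ 1 := by
    exact_mod_cast h3
  have h5 := mul_le_mul_of_nonneg_left h4 (sub_nonneg.2 h1)
  linarith

theorem sum_WW (η : ℝ) (h0 : 0 ≤ η) (h1 : η ≤ 1) (B : ℕ) (hB : 2 ≤ B) (K : ℕ) :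
    ∑ u ∈ range (B ^ (K + 1)), WW η B K u ≤ B * (1 + (B - 1) * η) ^ K := by
  have hB1 : (1 : ℝ) ≤ B := by exact_mod_cast (by omega : 1 ≤ B)
  induction K with
  | zero => simp [WW]
  | succ K ih =>
    have hB0 : 0 < B := by omega
    have h2 : B ^ (K + 1 + 1) = B * B ^ (K + 1) := by ring
    rw [h2, sum_range_mul B _ hB0]
    have h3 : ∀ u ∈ range (B ^ (K + 1)), ∑ d ∈ range B, WW η B (K + 1) (d + B * u) ≤
        (1 + (B - 1) * η) * WW η B K u := by
      intro u _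
      have h4 : ∀ d ∈ range B, WW η B (K + 1) (d + B * u) =
          WW η B K u * wt η B ((d + B * u) % B ^ 2) := by
        intro d hd
        rw [mem_range] at hd
        unfold WW
        rw [Finset.prod_range_succ']
        congr 1
        · apply Finset.prod_congr rfl
          intro s _
          have h5 : (d + B * u) / B ^ (s + 1) = u / B ^ s := by
            rw [pow_succ, mul_comm (B ^ s) B, ← Nat.div_div_eq_div_mul,
              Nat.add_mul_div_left _ _ hB0, Nat.div_eq_of_lt hd, zero_add]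
          rw [h5]
        · rw [pow_zero, Nat.div_one]
      rw [Finset.sum_congr rfl h4, ← Finset.mul_sum, mul_comm]
      exact mul_le_mul_of_nonneg_right (sum_wt η h0 h1 B hB u) (WW_nonneg η h0 B K u)
    refine (Finset.sum_le_sum h3).trans ?_
    rw [← Finset.mul_sum, pow_succ]
    have h6 : 0 ≤ 1 + ((B : ℝ) - 1) * η := by
      have : 0 ≤ ((B : ℝ) - 1) * η := mul_nonneg (by linarith) h0
      linarith
    calc (1 + ((B : ℝ) - 1) * η) * ∑ u ∈ range (B ^ (K + 1)), WW η B K u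
        ≤ (1 + ((B : ℝ) - 1) * η) * (B * (1 + (B - 1) * η) ^ K) := mul_le_mul_of_nonneg_left ih h6
      _ = _ := by ring

theorem sg_cell (B : ℕ) (hB : 2 ≤ B) (q a i : ℕ) (hq : 0 < q)
    (hv : ¬ (a * B ^ (i + 2) / q % B ^ 2 = 0 ∨ a * B ^ (i + 2) / q % B ^ 2 = B ^ 2 - 1)) :
    4 / (B : ℝ) ^ 4 ≤ sg (B ^ i * ((a : ℝ) / q)) := by
  push Not at hv
  have hB0 : (0 : ℝ) < B := by exact_mod_cast (by omega : 0 < B)
  have hq0 : (0 : ℝ) < q := by exact_mod_cast hq
  obtain ⟨N, hN⟩ : ∃ N, N = a * B ^ (i + 2) / q := ⟨_, rfl⟩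
  rw [← hN] at hv
  obtain ⟨v, hv'⟩ : ∃ v, v = N % B ^ 2 := ⟨_, rfl⟩
  obtain ⟨m, hm⟩ : ∃ m, m = N / B ^ 2 := ⟨_, rfl⟩
  rw [← hv'] at hv
  have hNe : N = v + B ^ 2 * m := by rw [hv', hm]; exact (Nat.mod_add_div N (B ^ 2)).symm
  have hB2 : 0 < B ^ 2 := by positivity
  have hv2 : v < B ^ 2 := by rw [hv']; exact Nat.mod_lt _ hB2
  have h1 : (N : ℝ) ≤ a * B ^ (i + 2) / q := by
    rw [le_div_iff₀ hq0]
    have : N * q ≤ a * B ^ (i + 2) := by rw [hN]; exact Nat.div_mul_le_self _ _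
    exact_mod_cast this
  have h2 : (a : ℝ) * B ^ (i + 2) / q < N + 1 := by
    rw [div_lt_iff₀ hq0]
    have : a * B ^ (i + 2) < (N + 1) * q := by
      rw [hN]
      have := Nat.lt_mul_div_succ (a * B ^ (i + 2)) hq
      linarith
    exact_mod_cast this
  have h3 := sg_ge (B ^ i * ((a : ℝ) / q)) m (1 / (B : ℝ) ^ 2) (by positivity) (by
    have h4 : (v : ℝ) ≥ 1 := by exact_mod_cast (by omega : 1 ≤ v)
    have h5 : (N : ℝ) = v + B ^ 2 * m := by exact_mod_cast hNe
    have h6 : (B : ℝ) ^ i * ((a : ℝ) / q) = (a * B ^ (i + 2) / q) / B ^ 2 := by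
      rw [pow_add]; field_simp
    rw [h6, le_div_iff₀ (by positivity)]
    have h7 : (((m : ℤ) : ℝ) + 1 / (B : ℝ) ^ 2) * B ^ 2 = B ^ 2 * m + 1 := by
      push_cast
      field_simp
    rw [h7]
    linarith) (by
    have h4 : (v : ℝ) + 1 ≤ B ^ 2 - 1 := by
      have : v + 1 + 1 ≤ B ^ 2 := by omega
      have h5 : ((v + 1 + 1 : ℕ) : ℝ) ≤ ((B ^ 2 : ℕ) : ℝ) := by exact_mod_cast this
      push_cast at h5
      linarith
    have h5 : (N : ℝ) = v + B ^ 2 * m := by exact_mod_cast hNe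
    have h6 : (B : ℝ) ^ i * ((a : ℝ) / q) = (a * B ^ (i + 2) / q) / B ^ 2 := by
      rw [pow_add]; field_simp
    rw [h6, div_le_iff₀ (by positivity)]
    have h7 : (((m : ℤ) : ℝ) + 1 - 1 / (B : ℝ) ^ 2) * B ^ 2 = B ^ 2 * m + B ^ 2 - 1 := by
      push_cast
      field_simp
    rw [h7]
    linarith)
  have h4 : 4 * (1 / (B : ℝ) ^ 2) ^ 2 = 4 / (B : ℝ) ^ 4 := by
    field_simp
  linarith

/-- the cells of the reduced fractions -/
theorem G_le_WW (c : ℝ) (hc : 0 ≤ c) (B : ℕ) (hB : 2 ≤ B) (K q a : ℕ) (hq : 0 < q) :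
    G c B K ((a : ℝ) / q) ≤ WW (Real.exp (-(c * (4 / (B : ℝ) ^ 4)))) B K (a * B ^ (K + 1) / q) := by
  unfold G WW
  rw [Finset.mul_sum, ← Finset.sum_neg_distrib, Real.exp_sum, ← Finset.prod_range_reflect]
  apply Finset.prod_le_prod
  · intro i _
    exact (Real.exp_pos _).le
  · intro s hs
    rw [mem_range] at hs
    have h1 : a * B ^ (K + 1) / q / B ^ s = a * B ^ (K - 1 - s + 2) / q := by
      have h2 : B ^ (K + 1) = B ^ (K - 1 - s + 2) * B ^ s := by
        rw [← pow_add]; congr 1; omega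
      rw [Nat.div_div_eq_div_mul, h2, ← mul_assoc, Nat.mul_div_mul_right _ _ (by positivity)]
    rw [h1]
    unfold wt
    split_ifs with h
    · rw [Real.exp_le_one_iff]
      have := mul_nonneg hc (sg_nonneg ((B : ℝ) ^ (K - 1 - s) * ((a : ℝ) / q)))
      linarith
    · apply Real.exp_le_exp.2
      have := mul_le_mul_of_nonneg_left (sg_cell B hB q a (K - 1 - s) hq h) hc
      linarith

theorem cell_inj (X : ℕ) (q a q' a' j : ℕ) (hX : X = j * j) (hq : 0 < q) (hq' : 0 < q')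
    (hj : q ≤ j) (hj' : q' ≤ j) (hc : Nat.Coprime a q) (hc' : Nat.Coprime a' q')
    (h : a * X / q = a' * X / q') : q = q' ∧ a = a' := by
  obtain ⟨u, hu⟩ : ∃ u, u = a * X / q := ⟨_, rfl⟩
  have h1 : u * q ≤ a * X := by rw [hu]; exact Nat.div_mul_le_self _ _
  have h2 : a * X < (u + 1) * q := by
    have := Nat.lt_mul_div_succ (a * X) hq
    rw [← hu] at this
    linarith
  have hu' : u = a' * X / q' := by rw [hu, h]
  have h1' : u * q' ≤ a' * X := by rw [hu']; exact Nat.div_mul_le_self _ _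
  have h2' : a' * X < (u + 1) * q' := by
    have := Nat.lt_mul_div_succ (a' * X) hq'
    rw [← hu'] at this
    linarith
  have hqq : q * q' ≤ X := by rw [hX]; exact Nat.mul_le_mul hj hj'
  have h3 : a * q' = a' * q := by
    by_contra hne
    rcases Nat.lt_or_gt_of_ne hne with h4 | h4
    · have h5 : (a * q' + 1) * X ≤ a' * q * X := Nat.mul_le_mul_right _ h4
      have h6 : a' * X * q < (u + 1) * q' * q := Nat.mul_lt_mul_of_pos_right h2' hq
      have h7 : u * q * q' ≤ a * X * q' := Nat.mul_le_mul_right _ h1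
      nlinarith
    · have h5 : (a' * q + 1) * X ≤ a * q' * X := Nat.mul_le_mul_right _ h4
      have h6 : a * X * q' < (u + 1) * q * q' := Nat.mul_lt_mul_of_pos_right h2 hq'
      have h7 : u * q' * q ≤ a' * X * q := Nat.mul_le_mul_right _ h1'
      nlinarith
  have h4 : q ∣ q' := by
    have h5 : q ∣ a * q' := ⟨a', by rw [h3]; ring⟩
    exact (Nat.Coprime.symm hc).dvd_of_dvd_mul_left h5
  have h5 : q' ∣ q := by
    have h6 : q' ∣ a' * q := ⟨a, by rw [← h3]; ring⟩
    exact (Nat.Coprime.symm hc').dvd_of_dvd_mul_left h6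
  have h6 : q = q' := Nat.dvd_antisymm h4 h5
  refine ⟨h6, ?_⟩
  rw [h6] at h3
  exact Nat.eq_of_mul_eq_mul_right hq' h3

/-- the average bound -/
theorem avg (c : ℝ) (hc : 0 ≤ c) (B : ℕ) (hB : 2 ≤ B) (K j : ℕ) (hK : K + 1 = j + j)
    (Q : Finset ℕ) (hQ : ∀ q ∈ Q, 0 < q ∧ q ≤ B ^ j) :
    ∑ q ∈ Q, ∑ a ∈ Red q, G c B K ((a : ℝ) / q) ≤
      B * (1 + (B - 1) * Real.exp (-(c * (4 / (B : ℝ) ^ 4)))) ^ K := by
  obtain ⟨η, hη⟩ : ∃ η : ℝ, η = Real.exp (-(c * (4 / (B : ℝ) ^ 4))) := ⟨_, rfl⟩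
  have hη0 : 0 ≤ η := by rw [hη]; exact (Real.exp_pos _).le
  have hη1 : η ≤ 1 := by
    rw [hη, Real.exp_le_one_iff]
    have : 0 ≤ c * (4 / (B : ℝ) ^ 4) := by positivity
    linarith
  have hXeq : B ^ (K + 1) = B ^ j * B ^ j := by rw [hK, pow_add]
  rw [← hη]
  have h1 : ∑ q ∈ Q, ∑ a ∈ Red q, G c B K ((a : ℝ) / q) ≤
      ∑ q ∈ Q, ∑ a ∈ Red q, WW η B K (a * B ^ (K + 1) / q) := by
    apply Finset.sum_le_sum
    intro q hq
    apply Finset.sum_le_sum
    intro a _
    rw [hη]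
    exact G_le_WW c hc B hB K q a (hQ q hq).1
  refine h1.trans ?_
  rw [Finset.sum_sigma' Q (fun q => Red q) (fun q a => WW η B K (a * B ^ (K + 1) / q))]
  have hinj : Set.InjOn (fun x : (_ : ℕ) × ℕ => x.2 * B ^ (K + 1) / x.1)
      (Q.sigma fun q => Red q : Set ((_ : ℕ) × ℕ)) := by
    rintro ⟨q, a⟩ hx ⟨q', a'⟩ hx' h
    rw [Finset.mem_coe, Finset.mem_sigma] at hx hx'
    obtain ⟨hx1, hx2⟩ := hx
    obtain ⟨hx1', hx2'⟩ := hx'
    simp only at hx1 hx2 hx1' hx2' h
    unfold Red at hx2 hx2'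
    rw [mem_filter] at hx2 hx2'
    obtain ⟨e1, e2⟩ := cell_inj (B ^ (K + 1)) q a q' a' (B ^ j) hXeq (hQ q hx1).1 (hQ q' hx1').1
      (hQ q hx1).2 (hQ q' hx1').2 hx2.2 hx2'.2 h
    subst e1
    subst e2
    rfl
  have h2 : ∑ x ∈ Q.sigma fun q => Red q, WW η B K (x.2 * B ^ (K + 1) / x.1) =
      ∑ u ∈ (Q.sigma fun q => Red q).image (fun x : (_ : ℕ) × ℕ => x.2 * B ^ (K + 1) / x.1),
        WW η B K u := by
    rw [Finset.sum_image (fun x hx y hy h => hinj hx hy h)]
  rw [h2]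
  refine le_trans ?_ (sum_WW η hη0 hη1 B hB K)
  apply Finset.sum_le_sum_of_subset_of_nonneg
  · intro u hu
    obtain ⟨⟨q, a⟩, hx, rfl⟩ := Finset.mem_image.1 hu
    rw [Finset.mem_sigma] at hx
    obtain ⟨hx1, hx2⟩ := hx
    simp only at hx1 hx2 ⊢
    unfold Red at hx2
    rw [mem_filter, mem_range] at hx2
    rw [mem_range]
    apply Nat.div_lt_of_lt_mul
    have hB0 : 0 < B ^ (K + 1) := by positivity
    exact Nat.mul_lt_mul_of_pos_right hx2.1 hB0
  · intro u _ _
    exact WW_nonneg η hη0 B K u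

end Pool.Agent.X35.RP
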