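import Pool.Agent.X35.RP.Err
import Pool.Agent.Y257.HS.TH
import Pool.Agent.Helper256.KM.Mertens

/-!
# The sieve and the fourth moment
-/

set_option autoImplicit false

open Finset Filter

namespace Pool.Agent.X35.RP

open Pool.Agent.Y843.HS (Pr Sv VV Th qq Wt S_TH)

instance fact4 : Fact (1 ≤ (4 : ENNReal)) := ⟨by norm_num⟩

/-- the fourth moment norm on `0, …, M - 1` -/
noncomputable def n4 (M : ℕ) (f : ℕ → ℂ) : ℝ :=
  ‖(WithLp.toLp 4 (fun i : Fin M => f i) : PiLp 4 (fun _ : Fin M => ℂ))‖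

theorem n4_nonneg (M : ℕ) (f : ℕ → ℂ) : 0 ≤ n4 M f := norm_nonneg _

theorem n4_pow (M : ℕ) (f : ℕ → ℂ) : n4 M f ^ 4 = ∑ k ∈ range M, ‖f k‖ ^ 4 := by
  unfold n4
  have h4 : (4 : ENNReal).toReal = 4 := by norm_num
  rw [PiLp.norm_eq_sum (by rw [h4]; norm_num)]
  rw [h4]
  have h1 : ∑ i : Fin M, ‖(WithLp.toLp 4 (fun i : Fin M => f i) : PiLp 4 (fun _ : Fin M => ℂ)) i‖ ^ (4 : ℝ) =
      ∑ k ∈ range M, ‖f k‖ ^ 4 := by
    rw [Finset.sum_range]
    apply Finset.sum_congr rfl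
    intro i _
    simp only
    exact_mod_cast Real.rpow_natCast ‖f i‖ 4
  rw [h1]
  have h2 : 0 ≤ ∑ k ∈ range M, ‖f k‖ ^ 4 := Finset.sum_nonneg fun _ _ => by positivity
  rw [← Real.rpow_natCast, ← Real.rpow_mul h2]
  norm_num

theorem n4_sum {ι : Type*} (M : ℕ) (I : Finset ι) (f : ι → ℕ → ℂ) :
    n4 M (fun k => ∑ i ∈ I, f i k) ≤ ∑ i ∈ I, n4 M (f i) := by
  classical
  induction I using Finset.induction_on with
  | empty =>
    simp only [sum_empty]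
    have h1 := n4_pow M (fun _ => (0 : ℂ))
    simp only [norm_zero] at h1
    have h2 : n4 M (fun _ => (0 : ℂ)) ^ 4 = 0 := by rw [h1]; simp
    exact (pow_eq_zero_iff (by norm_num)).1 h2 |>.le
  | insert i I hi ih =>
    rw [Finset.sum_insert hi]
    have h1 : (fun k => ∑ i ∈ insert i I, f i k) = fun k => f i k + ∑ i ∈ I, f i k := by
      ext k
      rw [Finset.sum_insert hi]
    rw [h1]
    have h2 : n4 M (fun k => f i k + ∑ i ∈ I, f i k) ≤ n4 M (f i) + n4 M (fun k => ∑ i ∈ I, f i k) := by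
      unfold n4
      have h3 : (WithLp.toLp 4 (fun j : Fin M => f i j + ∑ i ∈ I, f i j) :
          PiLp 4 (fun _ : Fin M => ℂ)) = WithLp.toLp 4 (fun j : Fin M => f i j) +
          WithLp.toLp 4 (fun j : Fin M => ∑ i ∈ I, f i j) := rfl
      rw [h3]
      exact norm_add_le _ _
    linarith

theorem n4_smul (M : ℕ) (c : ℂ) (f : ℕ → ℂ) : n4 M (fun k => c * f k) = ‖c‖ * n4 M f := by
  unfold n4
  have h3 : (WithLp.toLp 4 (fun j : Fin M => c * f j) : PiLp 4 (fun _ : Fin M => ℂ)) =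
      c • WithLp.toLp 4 (fun j : Fin M => f j) := rfl
  rw [h3, norm_smul]

/-- the fourth moment of `H` -/
theorem n4_H (b : ℕ) (hb : 2 ≤ b) (l : ℕ) (r : ℝ) :
    n4 (b ^ (2 * l)) (fun k : ℕ => H b (2 * l) r ((k : ℝ) / b ^ (2 * l))) ≤
      (b : ℝ) ^ (2 * l) * G (1 / (2 * b ^ 4)) (b ^ 2) l ((((b ^ 2 : ℕ) : ℝ) - 1) * r) := by
  have hb0 : (0 : ℝ) < b := by exact_mod_cast (by omega : 0 < b)
  have h1 := n4_pow (b ^ (2 * l)) (fun k : ℕ => H b (2 * l) r ((k : ℝ) / b ^ (2 * l)))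
  have h2 : ∑ k ∈ range (b ^ (2 * l)), ‖H b (2 * l) r (k / b ^ (2 * l))‖ ^ 4 = SS b (2 * l) r := by
    unfold SS
    apply Finset.sum_congr rfl
    intro k _
    rw [norm_H b (by omega)]
  rw [h2] at h1
  have h3 := SS_le b hb l r
  rw [← h1] at h3
  have hG := G_pos (1 / (2 * b ^ 4)) (b ^ 2) l ((((b ^ 2 : ℕ) : ℝ) - 1) * r)
  have h4 : ((b : ℝ) ^ (2 * l)) ^ 4 *
      Real.exp (-(2 / b ^ 4 * ∑ i ∈ range l, sg ((b ^ 2) ^ i * ((b ^ 2 - 1) * r)))) =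
      ((b : ℝ) ^ (2 * l) * G (1 / (2 * b ^ 4)) (b ^ 2) l ((((b ^ 2 : ℕ) : ℝ) - 1) * r)) ^ 4 := by
    rw [mul_pow]
    congr 1
    unfold G
    rw [← Real.exp_nat_mul]
    congr 1
    push_cast
    generalize (∑ i ∈ range l, sg (((b : ℝ) ^ 2) ^ i * (((b : ℝ) ^ 2 - 1) * r))) = S
    field_simp
    ring
  rw [h4] at h3
  exact le_of_pow_le_pow_left₀ (by norm_num) (by positivity) h3

/-- the weighted sum -/
noncomputable def Sw (b L : ℕ) (w : ℕ → ℝ) (k : ℕ) : ℂ :=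
  ∑ n ∈ range (b ^ L), (w n : ℂ) * e (k * ((rv b L n : ℤ) / ((b ^ L : ℕ) : ℝ)))

theorem cop_prod {U : Finset ℕ} (hU : ∀ p ∈ U, p.Prime) (n : ℕ) :
    (∀ p ∈ U, n % p ∈ ({0} : Finset ℕ)) ↔ (∏ p ∈ U, p) ∣ n := by
  constructor
  · intro h
    apply Finset.prod_primes_dvd
    · intro p hp
      exact (hU p hp).prime
    · intro p hp
      have := h p hp
      rw [mem_singleton] at this
      exact Nat.dvd_of_mod_eq_zero this
  · intro h p hp
    rw [mem_singleton]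
    exact Nat.mod_eq_zero_of_dvd ((Finset.dvd_prod_of_mem _ hp).trans h)

theorem detect (d n : ℕ) (hd : 0 < d) :
    (if d ∣ n then (1 : ℂ) else 0) = (1 / (d : ℂ)) * ∑ a ∈ range d, e (((a : ℝ) / d) * n) := by
  have h1 := sum_e d hd (n : ℤ)
  have hd0 : (d : ℂ) ≠ 0 := by exact_mod_cast hd.ne'
  have h2 : ∑ a ∈ range d, e (((a : ℝ) / d) * n) = ∑ k ∈ range d, e (k * (((n : ℤ) : ℝ) / d)) := by
    apply Finset.sum_congr rfl
    intro a _
    congr 1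
    push_cast
    ring
  rw [h2, h1]
  have h3 : ((d : ℤ) ∣ (n : ℤ)) ↔ d ∣ n := Int.natCast_dvd_natCast
  by_cases h : d ∣ n
  · rw [if_pos h, if_pos (h3.2 h)]
    field_simp
  · rw [if_neg h, if_neg (fun h4 => h (h3.1 h4)), mul_zero]

/-- the expansion of the weighted sum -/
theorem Sw_eq (b L z R : ℕ) (θ : Finset ℕ → ℝ) (k : ℕ) :
    Sw b L (fun n => Th (fun _ => {0}) z R θ n) k =
      ∑ U ∈ (Pr z R).powerset, ((θ U : ℂ) * (1 / ((∏ p ∈ U, p : ℕ) : ℂ))) *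
        ∑ a ∈ range (∏ p ∈ U, p), H b L ((a : ℝ) / (∏ p ∈ U, p : ℕ)) (k / b ^ L) := by
  have hPr : ∀ p ∈ Pr z R, p.Prime := by
    intro p hp
    unfold Pr at hp
    exact (mem_filter.1 hp).2
  have hpr : ∀ U ∈ (Pr z R).powerset, ∀ p ∈ U, p.Prime := by
    intro U hU p hp
    exact hPr p (mem_powerset.1 hU hp)
  have h1 : ∀ n : ℕ, ((Th (fun _ => {0}) z R θ n : ℝ) : ℂ) =
      ∑ U ∈ (Pr z R).powerset, (θ U : ℂ) * (if (∏ p ∈ U, p) ∣ n then (1 : ℂ) else 0) := by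
    intro n
    unfold Th
    rw [Finset.sum_filter, Complex.ofReal_sum]
    apply Finset.sum_congr rfl
    intro U hU
    have := cop_prod (hpr U hU) n
    by_cases h : (∏ p ∈ U, p) ∣ n
    · rw [if_pos (this.2 h), if_pos h, mul_one]
    · rw [if_neg (fun h2 => h (this.1 h2)), if_neg h, mul_zero, Complex.ofReal_zero]
  unfold Sw
  simp only [h1]
  have h2 : ∀ n ∈ range (b ^ L), (∑ U ∈ (Pr z R).powerset,
      (θ U : ℂ) * (if (∏ p ∈ U, p) ∣ n then (1 : ℂ) else 0)) *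
      e (k * ((rv b L n : ℤ) / ((b ^ L : ℕ) : ℝ))) =
      ∑ U ∈ (Pr z R).powerset, ∑ a ∈ range (∏ p ∈ U, p),
        ((θ U : ℂ) * (1 / ((∏ p ∈ U, p : ℕ) : ℂ))) *
        e (((a : ℝ) / (∏ p ∈ U, p : ℕ)) * n + (k / b ^ L) * rv b L n) := by
    intro n _
    rw [Finset.sum_mul]
    apply Finset.sum_congr rfl
    intro U hU
    have hd : 0 < ∏ p ∈ U, p := Finset.prod_pos fun p hp => (hpr U hU p hp).pos
    rw [detect _ _ hd, ← mul_assoc, Finset.mul_sum, Finset.sum_mul]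
    apply Finset.sum_congr rfl
    intro a _
    rw [mul_assoc, ← e_add]
    congr 2
    push_cast
    ring
  rw [Finset.sum_congr rfl h2, Finset.sum_comm]
  apply Finset.sum_congr rfl
  intro U _
  rw [Finset.sum_comm, Finset.mul_sum]
  apply Finset.sum_congr rfl
  intro a _
  unfold H
  rw [Finset.mul_sum]

/-- the norm of the weighted sum -/
theorem n4_Sw (b : ℕ) (hb : 2 ≤ b) (l z R : ℕ) (θ : Finset ℕ → ℝ) (hθ : ∀ U, |θ U| ≤ 1) :
    n4 (b ^ (2 * l)) (Sw b (2 * l) (fun n => Th (fun _ => {0}) z R θ n)) ≤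
      (b : ℝ) ^ (2 * l) * (|qq (fun _ => {0}) z R θ| +
        ∑ d ∈ ((Pr z R).powerset.filter (fun U => θ U ≠ 0)).image (fun U => ∏ p ∈ U, p),
          (1 / (d : ℝ)) * ∑ a ∈ Ico 1 d,
            G (1 / (2 * b ^ 4)) (b ^ 2) l ((((b ^ 2 : ℕ) : ℝ) - 1) * ((a : ℝ) / d))) := by
  have hb0 : (0 : ℝ) < b := by exact_mod_cast (by omega : 0 < b)
  obtain ⟨c, hc⟩ : ∃ c : ℝ, c = 1 / (2 * (b : ℝ) ^ 4) := ⟨_, rfl⟩
  obtain ⟨M, hM⟩ : ∃ M : ℕ, M = b ^ (2 * l) := ⟨_, rfl⟩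
  obtain ⟨Mr, hMr⟩ : ∃ Mr : ℝ, Mr = (b : ℝ) ^ (2 * l) := ⟨_, rfl⟩
  obtain ⟨Hf, hHf⟩ : ∃ Hf : ℝ → ℕ → ℂ, Hf = fun (r : ℝ) (k : ℕ) => H b (2 * l) r ((k : ℝ) / b ^ (2 * l)) := ⟨_, rfl⟩
  have hH : ∀ r : ℝ, n4 M (Hf r) ≤ Mr * G c (b ^ 2) l ((((b ^ 2 : ℕ) : ℝ) - 1) * r) := by
    intro r
    rw [hM, hMr, hHf, hc]
    exact n4_H b hb l r
  have hG0 : G c (b ^ 2) l ((((b ^ 2 : ℕ) : ℝ) - 1) * 0) = 1 := by
    unfold G sg
    simp
  have hH0 : n4 M (Hf 0) ≤ Mr := by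
    have := hH 0
    rw [hG0, mul_one] at this
    exact this
  have hPr : ∀ p ∈ Pr z R, p.Prime := by
    intro p hp
    unfold Pr at hp
    exact (mem_filter.1 hp).2
  have hpr : ∀ U ∈ (Pr z R).powerset, ∀ p ∈ U, p.Prime := by
    intro U hU p hp
    exact hPr p (mem_powerset.1 hU hp)
  have hdpos : ∀ U ∈ (Pr z R).powerset, 0 < ∏ p ∈ U, p := fun U hU =>
    Finset.prod_pos fun p hp => (hpr U hU p hp).pos
  -- splitting
  have h1 : Sw b (2 * l) (fun n => Th (fun _ => {0}) z R θ n) =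
      fun k => (qq (fun _ => {0}) z R θ : ℂ) * Hf 0 k +
        ∑ U ∈ (Pr z R).powerset.filter (fun U => θ U ≠ 0), ∑ a ∈ Ico 1 (∏ p ∈ U, p),
          ((θ U : ℂ) * (1 / ((∏ p ∈ U, p : ℕ) : ℂ))) * Hf ((a : ℝ) / (∏ p ∈ U, p : ℕ)) k := by
    ext k
    rw [Sw_eq]
    have h2 : ∀ U ∈ (Pr z R).powerset, ((θ U : ℂ) * (1 / ((∏ p ∈ U, p : ℕ) : ℂ))) *
        ∑ a ∈ range (∏ p ∈ U, p), H b (2 * l) ((a : ℝ) / (∏ p ∈ U, p : ℕ)) (k / b ^ (2 * l)) =
        ((θ U : ℂ) * (1 / ((∏ p ∈ U, p : ℕ) : ℂ))) * Hf 0 k +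
        ∑ a ∈ Ico 1 (∏ p ∈ U, p),
          ((θ U : ℂ) * (1 / ((∏ p ∈ U, p : ℕ) : ℂ))) * Hf ((a : ℝ) / (∏ p ∈ U, p : ℕ)) k := by
      intro U hU
      rw [Finset.range_eq_Ico, Finset.sum_eq_sum_Ico_succ_bot (hdpos U hU), mul_add,
        ← Finset.mul_sum, hHf]
      simp
    rw [Finset.sum_congr rfl h2, Finset.sum_add_distrib]
    congr 1
    · rw [← Finset.sum_mul]
      congr 1
      unfold qq
      rw [Complex.ofReal_sum]
      apply Finset.sum_congr rfl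
      intro U _
      rw [Complex.ofReal_mul]
      congr 1
      rw [Complex.ofReal_prod]
      push_cast
      simp
    · rw [Finset.sum_filter]
      apply Finset.sum_congr rfl
      intro U _
      by_cases h : θ U = 0
      · rw [if_neg (by simpa using h), h]
        simp
      · rw [if_pos h]
  rw [h1]
  have hadd : ∀ f g : ℕ → ℂ, n4 M (fun k => f k + g k) ≤ n4 M f + n4 M g := by
    intro f g
    have := n4_sum M (univ : Finset (Fin 2)) (fun i => if i = 0 then f else g)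
    simp only [Fin.sum_univ_two] at this
    simpa using this
  rw [← hM, ← hMr, ← hc]
  refine (hadd _ _).trans ?_
  rw [mul_add]
  apply add_le_add
  · rw [n4_smul, Complex.norm_real, Real.norm_eq_abs, mul_comm]
    exact mul_le_mul_of_nonneg_right hH0 (abs_nonneg _)
  · refine (n4_sum _ _ _).trans ?_
    have hinj : Set.InjOn (fun U : Finset ℕ => ∏ p ∈ U, p)
        ((Pr z R).powerset.filter (fun U => θ U ≠ 0) : Set (Finset ℕ)) := by
      intro U hU V hV h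
      rw [Finset.mem_coe, mem_filter] at hU hV
      simp only at h
      rw [← Nat.primeFactors_prod (hpr U hU.1), ← Nat.primeFactors_prod (hpr V hV.1), h]
    rw [Finset.sum_image (fun x hx y hy h => hinj hx hy h), Finset.mul_sum]
    apply Finset.sum_le_sum
    intro U hU
    rw [mem_filter] at hU
    refine (n4_sum _ _ _).trans ?_
    rw [← mul_assoc, Finset.mul_sum]
    apply Finset.sum_le_sum
    intro a _
    rw [n4_smul, norm_mul, Complex.norm_real, Real.norm_eq_abs]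
    have h3 : ‖(1 / ((∏ p ∈ U, p : ℕ) : ℂ))‖ = 1 / ((∏ p ∈ U, p : ℕ) : ℝ) := by
      rw [norm_div, norm_one, Complex.norm_natCast]
    rw [h3]
    have hd0 : (0 : ℝ) < ((∏ p ∈ U, p : ℕ) : ℝ) := by exact_mod_cast hdpos U hU.1
    calc |θ U| * (1 / ((∏ p ∈ U, p : ℕ) : ℝ)) * n4 M (Hf ((a : ℝ) / (∏ p ∈ U, p : ℕ)))
        ≤ 1 * (1 / ((∏ p ∈ U, p : ℕ) : ℝ)) *
          (Mr * G c (b ^ 2) l ((((b ^ 2 : ℕ) : ℝ) - 1) * ((a : ℝ) / (∏ p ∈ U, p : ℕ)))) := by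
          apply mul_le_mul _ (hH _) (n4_nonneg _ _) (by positivity)
          exact mul_le_mul_of_nonneg_right (hθ U) (by positivity)
      _ = _ := by ring

end Pool.Agent.X35.RP
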