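import Pool.Agent.X35.RP.Mom
import Pool.Agent.W851.Had.Schn

/-!
# Sums of reversed primes
-/

set_option autoImplicit false

open Finset Filter

namespace Pool.Agent.X35.RP

open Pool.Agent.W851.Had (cnt SumH schn)

/-- the digital reverse of `n` in base `b` -/
def rev (b n : ℕ) : ℕ := Nat.ofDigits b (Nat.digits b n).reverse

theorem rev_eq (b : ℕ) (hb : 2 ≤ b) (L : ℕ) : ∀ n : ℕ, b ^ L ≤ n → n < b ^ (L + 1) →
    rev b n = rv b (L + 1) n ∧ (Nat.digits b n).length = L + 1 := by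
  induction L with
  | zero =>
    intro n h1 h2
    rw [pow_zero] at h1
    rw [zero_add, pow_one] at h2
    have h3 : Nat.digits b n = [n] := Nat.digits_of_lt b n (by omega) h2
    unfold rev
    rw [h3]
    simp [rv, Nat.mod_eq_of_lt h2]
  | succ L ih =>
    intro n h1 h2
    have hb0 : 0 < b := by omega
    have hn0 : 0 < n := lt_of_lt_of_le (pow_pos hb0 _) h1
    have h3 : Nat.digits b n = n % b :: Nat.digits b (n / b) := Nat.digits_def' (by omega) hn0
    have h4 : b ^ L ≤ n / b := by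
      rw [Nat.le_div_iff_mul_le hb0, ← pow_succ]
      exact h1
    have h5 : n / b < b ^ (L + 1) := by
      rw [Nat.div_lt_iff_lt_mul hb0, ← pow_succ]
      exact h2
    obtain ⟨i1, i2⟩ := ih (n / b) h4 h5
    constructor
    · unfold rev
      rw [h3, List.reverse_cons, Nat.ofDigits_append, List.length_reverse, i2]
      unfold rev at i1
      have hrv : rv b (L + 1 + 1) n = (n % b) * b ^ (L + 1) + rv b (L + 1) (n / b) := rfl
      rw [i1, hrv, Nat.ofDigits_singleton]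
      ring
    · rw [h3, List.length_cons, i2]

/-- `m` is a sum of at most `k` reversed primes -/
def IsSum (b k m : ℕ) : Prop :=
  ∃ s : Multiset ℕ, Multiset.card s ≤ k ∧ (∀ p ∈ s, p.Prime) ∧ (s.map (rev b)).sum = m

theorem IsSum.add {b k m k' m' : ℕ} (h : IsSum b k m) (h' : IsSum b k' m') :
    IsSum b (k + k') (m + m') := by
  obtain ⟨s, h1, h2, h3⟩ := h
  obtain ⟨s', h1', h2', h3'⟩ := h'
  refine ⟨s + s', by rw [Multiset.card_add]; omega, ?_, by rw [Multiset.map_add, Multiset.sum_add, h3, h3']⟩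
  intro p hp
  rcases Multiset.mem_add.1 hp with h | h
  · exact h2 p h
  · exact h2' p h

theorem IsSum.mono {b k k' m : ℕ} (h : IsSum b k m) (hk : k ≤ k') : IsSum b k' m := by
  obtain ⟨s, h1, h2, h3⟩ := h
  exact ⟨s, h1.trans hk, h2, h3⟩

theorem IsSum.zero (b k : ℕ) : IsSum b k 0 := ⟨0, by simp, by simp, by simp⟩

theorem IsSum.rep {b k m : ℕ} (h : IsSum b k m) (n : ℕ) : IsSum b (n * k) (n * m) := by
  induction n with
  | zero => rw [zero_mul, zero_mul]; exact IsSum.zero b 0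
  | succ n ih => rw [add_mul, add_mul, one_mul, one_mul]; exact ih.add h

theorem rev_digit (b n : ℕ) (hn : 0 < n) (h : n < b) : rev b n = n := by
  unfold rev
  rw [Nat.digits_of_lt b n (by omega) h]
  simp

theorem rev_base (b : ℕ) (hb : 2 ≤ b) : rev b b = 1 := by
  have h := (rev_eq b hb 1 b (by rw [pow_one]) (by
    rw [pow_succ, pow_one]; nlinarith)).1
  rw [h, rv, rv, rv]
  have h1 : b % b = 0 := Nat.mod_self b
  have h2 : b / b = 1 := Nat.div_self (by omega)
  rw [h1, h2, Nat.mod_eq_of_lt (by omega)]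
  simp

theorem small_sum (b : ℕ) (hb : 2 ≤ b) (m : ℕ) (hm : 2 ≤ m) : IsSum b m m := by
  by_cases hp : b.Prime
  · have h1 : IsSum b 1 1 := ⟨{b}, by simp, by simpa using hp, by simp [rev_base b hb]⟩
    have := h1.rep m
    rw [mul_one] at this
    exact this
  · have hb4 : 4 ≤ b := by
      by_contra h
      interval_cases b
      · exact hp Nat.prime_two
      · exact hp Nat.prime_three
    have h2 : IsSum b 1 2 := ⟨{2}, by simp, by simpa using Nat.prime_two, by
      simp [rev_digit b 2 (by norm_num) (by omega)]⟩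
    have h3 : IsSum b 1 3 := ⟨{3}, by simp, by simpa using Nat.prime_three, by
      simp [rev_digit b 3 (by norm_num) (by omega)]⟩
    rcases Nat.even_or_odd' m with ⟨c, hc | hc⟩
    · have := h2.rep c
      rw [hc]
      rw [mul_comm c 2] at this
      exact this.mono (by omega)
    · obtain ⟨d, rfl⟩ : ∃ d, c = d + 1 := ⟨c - 1, by omega⟩
      have := (h2.rep d).add h3
      have e1 : m = d * 2 + 3 := by omega
      rw [e1]
      exact this.mono (by omega)

/-- the set of `0`, `1` and the sums of two reversed primes -/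
def SP (b n : ℕ) : Prop := n = 0 ∨ n = 1 ∨ IsSum b 2 n

theorem TT_SP (b : ℕ) (hb : 2 ≤ b) (l : ℕ) (hl : 1 ≤ l) (m : ℕ) (hm : m ∈ TT b l) :
    SP b m ∧ m < 2 * b ^ (2 * l) := by
  unfold TT at hm
  rw [mem_image] at hm
  obtain ⟨⟨p, q⟩, hpq, rfl⟩ := hm
  rw [mem_product] at hpq
  obtain ⟨hp, hq⟩ := hpq
  unfold AA at hp hq
  simp only at hp hq ⊢
  rw [mem_filter, mem_Ico] at hp hq
  obtain ⟨L, hL⟩ : ∃ L, 2 * l = L + 1 := ⟨2 * l - 1, by omega⟩
  have hL' : 2 * l - 1 = L := by omega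
  rw [hL'] at hp hq
  rw [hL] at hp hq ⊢
  have h1 := (rev_eq b hb L p hp.1.1 hp.1.2).1
  have h2 := (rev_eq b hb L q hq.1.1 hq.1.2).1
  have h3 := rv_lt b (by omega) (L + 1) p
  have h4 := rv_lt b (by omega) (L + 1) q
  refine ⟨Or.inr (Or.inr ?_), by omega⟩
  rw [← h1, ← h2]
  refine ⟨{p, q}, by simp, ?_, by simp⟩
  intro x hx
  simp only [Multiset.insert_eq_cons, Multiset.mem_cons, Multiset.mem_singleton] at hx
  rcases hx with rfl | rfl
  · exact hp.2
  · exact hq.2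

theorem cnt_ge (b : ℕ) (hb : 2 ≤ b) : ∃ κ : ℝ, 0 < κ ∧ ∃ n0 : ℕ, ∀ n : ℕ, n0 ≤ n →
    κ * n ≤ cnt (SP b) n := by
  classical
  obtain ⟨κ, hκ, L1, h⟩ := TT_card b hb
  have hb0 : (0 : ℝ) < b := by exact_mod_cast (by omega : 0 < b)
  have hb1 : (1 : ℝ) < b := by exact_mod_cast (by omega : 1 < b)
  -- `κ b ^ (2 l) ≥ 2`
  obtain ⟨L2, hL2⟩ : ∃ L2 : ℕ, ∀ l : ℕ, L2 ≤ l → 2 ≤ κ * (b : ℝ) ^ (2 * l) := by
    have h1 : Tendsto (fun l : ℕ => κ * (b : ℝ) ^ (2 * l)) atTop atTop := by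
      apply Tendsto.const_mul_atTop hκ
      apply (tendsto_pow_atTop_atTop_of_one_lt hb1).comp
      exact tendsto_id.const_mul_atTop' (by norm_num)
    exact (h1.eventually_ge_atTop 2).exists_forall_of_atTop
  refine ⟨κ / (4 * b ^ 2), by positivity, 2 * b ^ (2 * (L1 + L2 + 1)), ?_⟩
  intro n hn
  -- choose the scale
  obtain ⟨l, hl⟩ : ∃ l, l = Nat.log (b ^ 2) (n / 2) := ⟨_, rfl⟩
  have hB : 1 < b ^ 2 := Nat.one_lt_pow (by norm_num) (by omega)
  have hn2 : b ^ (2 * (L1 + L2 + 1)) ≤ n / 2 := by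
    rw [Nat.le_div_iff_mul_le (by norm_num)]
    linarith
  have hn0 : n / 2 ≠ 0 := by
    have : 0 < b ^ (2 * (L1 + L2 + 1)) := by positivity
    omega
  have hl1 : L1 + L2 + 1 ≤ l := by
    rw [hl]
    apply (Nat.le_log_iff_pow_le hB hn0).2
    rw [← pow_mul]
    exact hn2
  have hl2 : b ^ (2 * l) ≤ n / 2 := by
    rw [pow_mul, hl]; exact Nat.pow_log_le_self _ hn0
  have hl3 : n / 2 < b ^ (2 * (l + 1)) := by
    rw [pow_mul, hl]; exact Nat.lt_pow_succ_log_self hB _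
  have h1 := h l (by omega)
  have h2 := hL2 l (by omega)
  have h3 : (TT b l).card ≤ cnt (SP b) n + 1 := by
    unfold cnt
    have : (TT b l).erase 0 ⊆ (Icc 1 n).filter (SP b) := by
      intro m hm
      rw [mem_erase] at hm
      obtain ⟨g1, g2⟩ := TT_SP b hb l (by omega) m hm.2
      rw [mem_filter, mem_Icc]
      exact ⟨⟨by omega, by omega⟩, g1⟩
    have h4 := Finset.card_le_card this
    have h5 := Finset.pred_card_le_card_erase (s := TT b l) (a := 0)
    omega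
  have h4 : ((TT b l).card : ℝ) ≤ cnt (SP b) n + 1 := by exact_mod_cast h3
  have h5 : (n : ℝ) ≤ 2 * (b : ℝ) ^ (2 * (l + 1)) := by
    have : n ≤ 2 * b ^ (2 * (l + 1)) := by omega
    exact_mod_cast this
  have h6 : (b : ℝ) ^ (2 * (l + 1)) = b ^ 2 * b ^ (2 * l) := by ring
  rw [h6] at h5
  have h7 : κ / (4 * (b : ℝ) ^ 2) * n ≤ κ / (4 * b ^ 2) * (2 * (b ^ 2 * b ^ (2 * l))) :=
    mul_le_mul_of_nonneg_left h5 (by positivity)
  have h8 : κ / (4 * (b : ℝ) ^ 2) * (2 * (b ^ 2 * b ^ (2 * l))) = κ * b ^ (2 * l) / 2 := by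
    field_simp; norm_num
  linarith

theorem list_sum (b : ℕ) (L : List ℕ) (hL : ∀ y ∈ L, SP b y) :
    ∃ j m : ℕ, j ≤ L.length ∧ IsSum b (2 * L.length) m ∧ m + j = L.sum := by
  induction L with
  | nil => exact ⟨0, 0, le_rfl, IsSum.zero b _, by simp⟩
  | cons y L ih =>
    obtain ⟨j, m, h1, h2, h3⟩ := ih (fun z hz => hL z (List.mem_cons_of_mem _ hz))
    rw [List.length_cons, List.sum_cons]
    rcases hL y List.mem_cons_self with h | h | h
    · exact ⟨j, m, by omega, h2.mono (by omega), by omega⟩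
    · exact ⟨j + 1, m, by omega, h2.mono (by omega), by omega⟩
    · exact ⟨j, m + y, by omega, (h2.add h).mono (by omega), by omega⟩

theorem main (b : ℕ) (hb : 2 ≤ b) : ∃ K N₀ : ℕ, ∀ N : ℕ, N₀ ≤ N → IsSum b K N := by
  obtain ⟨κ, hκ, n0, h⟩ := cnt_ge b hb
  obtain ⟨δ, hδ⟩ : ∃ δ : ℝ, δ = min (min κ 1) (1 / (n0 + 1)) := ⟨_, rfl⟩
  have hδ0 : 0 < δ := by
    rw [hδ]
    have : (0 : ℝ) < 1 / (n0 + 1) := by positivity
    exact lt_min (lt_min hκ one_pos) this
  have hδ1 : δ ≤ 1 := by rw [hδ]; exact (min_le_left _ _).trans (min_le_right _ _)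
  have hδκ : δ ≤ κ := by rw [hδ]; exact (min_le_left _ _).trans (min_le_left _ _)
  have hδn : δ ≤ 1 / (n0 + 1) := by rw [hδ]; exact min_le_right _ _
  obtain ⟨t, ht⟩ := exists_nat_ge (1 / δ)
  have ht1 : 1 ≤ δ * t := by
    rw [div_le_iff₀ hδ0] at ht
    linarith
  have hcnt : ∀ n : ℕ, δ * n ≤ cnt (SP b) n := by
    intro n
    rcases le_total n0 n with hn | hn
    · exact le_trans (mul_le_mul_of_nonneg_right hδκ (Nat.cast_nonneg _)) (h n hn)
    · rcases Nat.eq_zero_or_pos n with h0 | h0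
      · subst h0; simp
      · have h1 : 1 ≤ cnt (SP b) n := by
          classical
          unfold cnt
          rw [Nat.one_le_iff_ne_zero, ← Nat.pos_iff_ne_zero, Finset.card_pos]
          exact ⟨1, by rw [mem_filter, mem_Icc]; exact ⟨⟨le_rfl, h0⟩, Or.inr (Or.inl rfl)⟩⟩
        have h2 : (1 : ℝ) ≤ cnt (SP b) n := by exact_mod_cast h1
        have h3 : δ * n ≤ 1 / (n0 + 1) * n := mul_le_mul_of_nonneg_right hδn (Nat.cast_nonneg _)
        have h4 : 1 / ((n0 : ℝ) + 1) * n ≤ 1 := by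
          rw [one_div_mul_eq_div, div_le_one (by positivity)]
          have : (n : ℝ) ≤ n0 := by exact_mod_cast hn
          linarith
        linarith
  refine ⟨2 * (t + t) + ((t + t) + 2), 2, ?_⟩
  intro N hN
  obtain ⟨L, hL1, hL2, hL3⟩ := schn (SP b) (N - 2) t δ hδ1 ht1 (Or.inl rfl) (fun n _ => hcnt n)
    (N - 2) le_rfl
  obtain ⟨j, m, h1, h2, h3⟩ := list_sum b L hL2
  have h4 := small_sum b hb (j + 2) (by omega)
  have h5 := h2.add h4
  have h6 : m + (j + 2) = N := by omega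
  rw [h6] at h5
  rw [hL1] at h5 h1
  exact h5.mono (by omega)

end Pool.Agent.X35.RP
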